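import Pool.Agent.Helper29K9.Clu.Loc
import Pool.Agent.Y671.LD.Mid

set_option autoImplicit false

/-!
# Most windows contain the expected number of zeros
-/

namespace Pool.Agent.Helper29K9.Clu

open Complex Filter Topology MeasureTheory Set
open Pool.Agent.H24R2.DZ (NN ra)
open Pool.Agent.Y671.LD (DD Strip BB far_of ra_eq geo)

/-- the zeros with imaginary part in `(a, b]` -/
def zs (F : ℂ → ℂ) (a b : ℝ) : Set ℂ := {s : ℂ | F s = 0 ∧ a < s.im ∧ s.im ≤ b}

/-- their number, with multiplicity -/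
noncomputable def cnt (F : ℂ → ℂ) (a b : ℝ) : ℕ := ∑ᶠ s ∈ zs F a b, analyticOrderNatAt F s

theorem zs_fin {F : ℂ → ℂ} (hF : Differentiable ℂ F) {p : ℂ} (hp : F p ≠ 0) {B : ℝ}
    (hB : ∀ z, F z = 0 → |z.re| ≤ B) (a b : ℝ) : (zs F a b).Finite := by
  refine (finz hF hp ((isCompact_Icc (a := -B) (b := B)).reProdIm (isCompact_Icc (a := a) (b := b)))).subset ?_
  rintro s ⟨h1, h2, h3⟩
  refine ⟨?_, h1⟩
  rw [mem_reProdIm]
  have := abs_le.1 (hB s h1)
  exact ⟨⟨this.1, this.2⟩, ⟨h2.le, h3⟩⟩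

theorem cnt_add {F : ℂ → ℂ} (hfin : ∀ a b, (zs F a b).Finite) {a b c : ℝ} (hab : a ≤ b) (hbc : b ≤ c) :
    cnt F a c = cnt F a b + cnt F b c := by
  unfold cnt
  have h1 : zs F a c = zs F a b ∪ zs F b c := by
    ext s
    simp only [zs, mem_ofPred_eq, mem_union]
    constructor
    · rintro ⟨h1, h2, h3⟩
      rcases le_or_gt s.im b with h | h
      · exact Or.inl ⟨h1, h2, h⟩
      · exact Or.inr ⟨h1, h, h3⟩
    · rintro (⟨h1, h2, h3⟩ | ⟨h1, h2, h3⟩)
      · exact ⟨h1, h2, h3.trans hbc⟩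
      · exact ⟨h1, hab.trans_lt h2, h3⟩
  have h2 : Disjoint (zs F a b) (zs F b c) := by
    rw [Set.disjoint_left]
    rintro s ⟨-, -, h3⟩ ⟨-, h4, -⟩
    linarith
  rw [h1, finsum_mem_union h2 (hfin a b) (hfin b c)]

theorem cnt_self (F : ℂ → ℂ) (a : ℝ) : cnt F a a = 0 := by
  unfold cnt
  have h : zs F a a = ∅ := by
    rw [Set.eq_empty_iff_forall_notMem]
    rintro s ⟨-, h1, h2⟩
    linarith
  rw [h]
  simp

/-- orders and affine maps -/
theorem order_affine {F : ℂ → ℂ} (hF : Differentiable ℂ F) (c : ℂ) {r : ℂ} (hr : r ≠ 0) (z : ℂ) :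
    analyticOrderNatAt (fun z => F (c + r * z)) z = analyticOrderNatAt F (c + r * z) := by
  have h2 : (fun z => F (c + r * z)) = F ∘ (fun z => c + r * z) := rfl
  have h3 : analyticOrderAt (F ∘ (fun z => c + r * z)) z = analyticOrderAt F (c + r * z) := by
    apply analyticOrderAt_comp_of_deriv_ne_zero
    · fun_prop
    · have : HasDerivAt (fun z : ℂ => c + r * z) r z := by
        simpa using ((hasDerivAt_id z).const_mul r).const_add c
      rw [this.deriv]
      exact hr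
  unfold analyticOrderNatAt
  rw [h2, h3]

theorem cnt_window {F : ℂ → ℂ} {t r : ℝ} (hr : 0 < r) (hF : Differentiable ℂ F) (Z : Finset ℂ)
    (hZ : ∀ s, s ∈ Z ↔ ‖s‖ ≤ 6 ∧ F (I * t + r * s) = 0)
    (hall : ∀ s, F s = 0 → t < s.im → s.im ≤ t + r → |s.re| ≤ 5 * r) :
    cnt F t (t + r) = ∑ s ∈ Z.filter (fun s => 0 < s.im ∧ s.im ≤ 1),
      analyticOrderNatAt (fun z => F (I * t + r * z)) s := by
  have hrc : (r : ℂ) ≠ 0 := by exact_mod_cast hr.ne'
  have h1 : zs F t (t + r) = (fun z : ℂ => I * t + r * z) '' ((Z.filter (fun s => 0 < s.im ∧ s.im ≤ 1) : Finset ℂ) : Set ℂ) := by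
    ext s
    rw [Set.mem_image]
    constructor
    · rintro ⟨h1, h2, h3⟩
      have e : I * (t : ℂ) + r * ((s - I * t) / r) = s := by
        field_simp
        ring
      have hre : ((s - I * t) / (r : ℂ)).re = s.re / r := by
        rw [Complex.div_ofReal_re]
        simp
      have him : ((s - I * t) / (r : ℂ)).im = (s.im - t) / r := by
        rw [Complex.div_ofReal_im]
        simp
      refine ⟨(s - I * t) / r, ?_, e⟩
      rw [Finset.mem_coe, Finset.mem_filter, hZ, e]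
      have h4 : |(s.re / r)| ≤ 5 := by
        rw [abs_div, abs_of_pos hr, div_le_iff₀ hr]
        exact hall s h1 h2 h3
      have h5 : 0 < (s.im - t) / r := div_pos (by linarith) hr
      have h6 : (s.im - t) / r ≤ 1 := by
        rw [div_le_one hr]
        linarith
      refine ⟨⟨?_, h1⟩, ?_, ?_⟩
      · have := Complex.norm_le_abs_re_add_abs_im ((s - I * t) / (r : ℂ))
        rw [hre, him, abs_of_pos h5] at this
        linarith
      · rw [him]; exact h5
      · rw [him]; exact h6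
    · rintro ⟨z, hz, rfl⟩
      rw [Finset.mem_coe, Finset.mem_filter, hZ] at hz
      obtain ⟨⟨-, h1⟩, h2, h3⟩ := hz
      have him : (I * (t : ℂ) + r * z).im = t + r * z.im := by simp
      refine ⟨h1, ?_, ?_⟩
      · rw [him]
        have := mul_pos hr h2
        linarith
      · rw [him]
        nlinarith
  unfold cnt
  rw [h1, finsum_mem_image (fun x _ y _ hxy => mul_left_cancel₀ hrc (add_left_cancel hxy)),
    finsum_mem_coe_finset]
  exact Finset.sum_congr rfl fun s _ => (order_affine hF _ hrc s).symm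

/-- all scales are good near the height `t` -/
structure GH (F : ℂ → ℂ) (η T A : ℝ) (K J : ℕ) (t : ℝ) : Prop where
  small : ∀ k ≤ K, ∀ i : ℤ, |(i : ℝ)| ≤ 8 / th k →
    NN (A * th k) η (fun z => F (I * ((t + i * (th k * ra T A) : ℝ) : ℂ) + ra T (A * th k) * z))
  large : ∀ j ≤ J, NN (2 ^ j * A) η (fun z => F (I * t + ra T (2 ^ j * A) * z))
  far : ∀ z : ℂ, F z = 0 → 1 / 50 ≤ |z.re| → |z.im - t| ≤ 1 → False

theorem ra_mul (T A θ : ℝ) : ra T (A * θ) = θ * ra T A := by
  rw [ra_eq, ra_eq]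
  ring

theorem gh_spec {F : ℂ → ℂ} {η T A δ t : ℝ} {K J : ℕ} (hF : Differentiable ℂ F) (hT : 2 ≤ T)
    (hA : 0 < A) (hδ : 0 < δ) (hδ1 : δ ≤ 1 / 40) (hη : η ≤ δ) (hK : th K / 1000 ≤ δ ^ 2)
    (hJ : 1 / 200 < ra T (2 ^ J * A)) (hr1 : ra T A ≤ 1) (h : GH F η T A K J t) :
    |(cnt F t (t + ra T A) : ℝ) - A / Real.pi| ≤ 200 * A * δ ∧
      ∀ s, F s = 0 → t < s.im → s.im ≤ t + ra T A → |s.re| ≤ δ * ra T A := by
  have hL : 0 < Real.log T := Real.log_pos (by linarith)
  have hr : 0 < ra T A := by rw [ra_eq]; positivity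
  have hls : LS A (th K / 1000) η (fun z => F (I * t + ra T A * z)) := by
    refine ls_of hA (by linarith) K ?_
    intro k hk i hi
    have h1 := h.small k hk i hi
    have e : (fun w : ℂ => (fun z => F (I * t + ra T A * z)) (I * ((i * th k : ℝ) : ℂ) + (th k : ℝ) * w)) =
        fun z => F (I * ((t + i * (th k * ra T A) : ℝ) : ℂ) + ra T (A * th k) * z) := by
      funext w
      simp only
      congr 1
      rw [ra_mul]
      push_cast
      ring
    rw [e]
    exact h1
  have hx0 : 0 < th K / 1000 := by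
    have := th_pos K
    positivity
  obtain ⟨Z, hZ, hZre, hcount⟩ := win hA hx0 hδ hδ1 hη hK hls
  have hrc : ((ra T A : ℝ) : ℂ) ≠ 0 := by exact_mod_cast hr.ne'
  -- the zeros in the window are near the line
  have h5 : ∀ s, F s = 0 → t < s.im → s.im ≤ t + ra T A → |s.re| ≤ 5 * ra T A := by
    intro s hs h1 h2
    by_contra hcon
    push Not at hcon
    have h3 : |s.re| < 1 / 50 := by
      by_contra h3
      push Not at h3
      exact h.far s hs h3 (by rw [abs_le]; constructor <;> linarith)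
    classical
    have hra2 : ∀ j : ℕ, ra T (2 ^ (j + 1) * A) = 2 * ra T (2 ^ j * A) := by
      intro j
      rw [ra_eq, ra_eq, pow_succ]
      ring
    have hraA : ∀ j : ℕ, ra T A ≤ ra T (2 ^ j * A) := by
      intro j
      rw [ra_eq, ra_eq]
      have : A ≤ 2 ^ j * A := le_mul_of_one_le_left hA.le (one_le_pow₀ (by norm_num))
      gcongr
    have hex : ∃ j, |s.re| ≤ 5 * ra T (2 ^ j * A) := ⟨J, by linarith⟩
    obtain ⟨j, hj, hmin⟩ : ∃ j, |s.re| ≤ 5 * ra T (2 ^ j * A) ∧ ∀ i < j, ¬ |s.re| ≤ 5 * ra T (2 ^ i * A) :=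
      ⟨Nat.find hex, Nat.find_spec hex, fun i hi => Nat.find_min hex hi⟩
    have hjJ : j ≤ J := by
      by_contra hc
      exact hmin J (by omega) (by linarith)
    have hj0 : j ≠ 0 := by
      rintro rfl
      rw [pow_zero, one_mul] at hj
      linarith
    obtain ⟨i, rfl⟩ : ∃ i, j = i + 1 := ⟨j - 1, by omega⟩
    have hi := hmin i (by omega)
    push Not at hi
    have hri : 0 < ra T (2 ^ (i + 1) * A) := hr.trans_le (hraA _)
    have hN := h.large (i + 1) hjJ
    obtain ⟨e1, e2, e3⟩ := Pool.Agent.Y671.LD.coord (t' := t) (s := s) hri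
    have hra := hraA (i + 1)
    have him : |((s - I * t) / (ra T (2 ^ (i + 1) * A) : ℝ)).im| ≤ 1 := by
      rw [e3, abs_div, abs_of_pos hri, div_le_iff₀ hri, one_mul, abs_le]
      constructor <;> linarith
    have hre1 : |((s - I * t) / (ra T (2 ^ (i + 1) * A) : ℝ)).re| ≤ 5 := by
      rw [e2, abs_div, abs_of_pos hri, div_le_iff₀ hri]
      exact hj
    have hre2 : 2 ≤ |((s - I * t) / (ra T (2 ^ (i + 1) * A) : ℝ)).re| := by
      rw [e2, abs_div, abs_of_pos hri, le_div_iff₀ hri, hra2]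
      linarith
    have hn : ‖(s - I * t) / (ra T (2 ^ (i + 1) * A) : ℝ)‖ ≤ 20 := by
      have := Complex.norm_le_abs_re_add_abs_im ((s - I * t) / ((ra T (2 ^ (i + 1) * A) : ℝ) : ℂ))
      linarith
    rcases le_total 0 ((s - I * t) / ((ra T (2 ^ (i + 1) * A) : ℝ) : ℂ)).re with h0 | h0
    · rw [abs_of_nonneg h0] at hre2
      have := (hN.far _ (by linarith) hn).1
      rw [e1] at this
      exact this hs
    · rw [abs_of_nonpos h0] at hre2
      have h6 := (hN.far (-((starRingEnd ℂ) ((s - I * t) / ((ra T (2 ^ (i + 1) * A) : ℝ) : ℂ))))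
        (by simp only [neg_re, conj_re]; linarith) (by rw [norm_neg, Complex.norm_conj]; exact hn)).1
      have h7 := hN.symm ((s - I * t) / ((ra T (2 ^ (i + 1) * A) : ℝ) : ℂ))
      simp only [e1, hs, map_zero] at h7
      exact h6 h7
  constructor
  · rw [cnt_window hr hF Z hZ h5]
    push_cast
    exact hcount
  · intro s hs h1 h2
    have h6 := h5 s hs h1 h2
    obtain ⟨e1, e2, e3⟩ := Pool.Agent.Y671.LD.coord (t' := t) (s := s) hr
    have hmem : (s - I * t) / (ra T A : ℝ) ∈ Z := by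
      rw [hZ]
      refine ⟨?_, ?_⟩
      · have := Complex.norm_le_abs_re_add_abs_im ((s - I * t) / ((ra T A : ℝ) : ℂ))
        rw [e2, e3, abs_div, abs_div, abs_of_pos hr] at this
        have h7 : |s.re| / ra T A ≤ 5 := by
          rw [div_le_iff₀ hr]
          exact h6
        have h8 : |s.im - t| / ra T A ≤ 1 := by
          rw [div_le_one hr, abs_le]
          constructor <;> linarith
        linarith
      · simp only [e1]
        exact hs
    have h7 := hZre _ hmem
    rw [e2, abs_div, abs_of_pos hr, div_lt_iff₀ hr] at h7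
    refine h7.le.trans ?_
    gcongr
    nlinarith

theorem exists_J' {A L : ℝ} (hA : 0 < A) (hAL : A ≤ L / 200) :
    ∃ J : ℕ, (2 : ℝ) ^ J * A ≤ L / 200 ∧ L / 400 < (2 : ℝ) ^ J * A := by
  have h1 : 1 ≤ L / 200 / A := by
    rw [le_div_iff₀ hA]
    linarith
  obtain ⟨J, h2, h3⟩ := exists_nat_pow_near h1 (by norm_num : (1 : ℝ) < 2)
  refine ⟨J, ?_, ?_⟩
  · rwa [le_div_iff₀ hA] at h2
  · rw [div_lt_iff₀ hA, pow_succ] at h3
    linarith

theorem gh_meas {F : ℂ → ℂ} {B K0 : ℝ} (hD : DD B K0 F) (hstrip : Strip F B) {η : ℝ} (hη : 0 < η) (K : ℕ) :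
    ∃ c C A0 T0 : ℝ, 0 < c ∧ 0 < C ∧ 1 ≤ A0 ∧ 2 ≤ T0 ∧ ∀ T A : ℝ, T0 ≤ T → A0 ≤ A → A ≤ Real.log T / 200 →
      ∃ J : ℕ, 1 / 200 < ra T (2 ^ J * A) ∧
        volume {t : ℝ | T < t ∧ t ≤ 5 / 2 * T ∧ ¬ GH F η T A K J t} ≤
          ENNReal.ofReal (C * T * Real.exp (-(c * A))) := by
  obtain ⟨c1, C1, a1, T1, hc1, hC1, ha1, hT1, hsc1⟩ := hD.good η hη
  obtain ⟨c3, C3, T3, hc3, hC3, hT3, hfar⟩ := far_of hD hstrip
  have hq1 : Real.exp (-c1) < 1 := Real.exp_lt_one_iff.2 (by linarith)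
  obtain ⟨Q, hQ⟩ : ∃ Q : ℝ, Q = 1 / (1 - Real.exp (-c1)) := ⟨_, rfl⟩
  have hQ0 : 0 < Q := by rw [hQ]; apply one_div_pos.2; linarith
  obtain ⟨M, hM⟩ : ∃ M : ℕ, M = ⌈8 / th K⌉₊ := ⟨_, rfl⟩
  have htK := th_pos K
  have htK1 := th_le K
  obtain ⟨P, hP⟩ : ∃ P : Finset (ℕ × ℤ), P = Finset.range (K + 1) ×ˢ Finset.Icc (-(M : ℤ)) M := ⟨_, rfl⟩
  refine ⟨min (c1 * th K) c3, P.card * C1 + C1 * Real.exp c1 * Q + C3, max 1 (a1 / th K), max T1 T3,
    lt_min (by positivity) hc3, by positivity, le_max_left _ _, hT1.trans (le_max_left _ _), ?_⟩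
  intro T A hT hA hAL
  have hA1 : 1 ≤ A := (le_max_left _ _).trans hA
  have hA0 : 0 < A := by linarith
  have hAa : a1 ≤ A * th K := by
    have := (le_max_right _ _).trans hA
    rwa [div_le_iff₀ htK] at this
  have hTT1 : T1 ≤ T := (le_max_left _ _).trans hT
  have hTT3 : T3 ≤ T := (le_max_right _ _).trans hT
  have hT2 : 2 ≤ T := hT1.trans hTT1
  have hT0 : 0 < T := by linarith
  obtain ⟨L, hL⟩ : ∃ L : ℝ, L = Real.log T := ⟨_, rfl⟩
  rw [← hL] at hAL
  have hL0 : 0 < L := by linarith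
  obtain ⟨J, hJ1, hJ2⟩ := exists_J' hA0 hAL
  have hr : ra T A = 2 * A / L := by rw [ra_eq, hL]
  have hr0 : 0 < ra T A := by rw [hr]; positivity
  have hr1 : ra T A ≤ 1 / 100 := by
    rw [hr, div_le_iff₀ hL0]
    linarith
  refine ⟨J, ?_, ?_⟩
  · rw [ra_eq, ← hL, lt_div_iff₀ hL0]
    linarith
  -- the three exceptional sets
  have hsub : {t : ℝ | T < t ∧ t ≤ 5 / 2 * T ∧ ¬ GH F η T A K J t} ⊆
      (⋃ p ∈ P, (fun t : ℝ => t + (p.2 : ℝ) * (th p.1 * ra T A)) ⁻¹' BB F η T (A * th p.1)) ∪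
      ((⋃ j ∈ Finset.range (J + 1), BB F η T (2 ^ j * A)) ∪
        {t : ℝ | T / 2 ≤ t ∧ t ≤ 3 * T ∧ ∃ z : ℂ, F z = 0 ∧ 1 / 50 ≤ |z.re| ∧ |z.im - t| ≤ 1}) := by
    rintro t ⟨h1, h2, h3⟩
    by_contra hcon
    simp only [mem_union, not_or] at hcon
    obtain ⟨hc1, hc2, hc3⟩ := hcon
    apply h3
    refine ⟨?_, ?_, ?_⟩
    · intro k hk i hi
      by_contra hN
      apply hc1
      have htk := th_pos k
      have hKk : th K ≤ th k := by
        unfold th
        exact pow_le_pow_of_le_one (by norm_num) (by norm_num) hk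
      have hiM : |(i : ℝ)| ≤ M := by
        refine hi.trans ?_
        rw [hM]
        refine le_trans ?_ (Nat.le_ceil _)
        gcongr
      have hsh : |(i : ℝ) * (th k * ra T A)| ≤ 1 / 10 := by
        rw [abs_mul, abs_of_pos (by positivity : 0 < th k * ra T A)]
        calc |(i : ℝ)| * (th k * ra T A) ≤ 8 / th k * (th k * (1 / 100)) := by gcongr
          _ = 8 / 100 := by field_simp
          _ ≤ _ := by norm_num
      have hsh' := abs_le.1 hsh
      simp only [mem_iUnion, mem_preimage]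
      refine ⟨(k, i), ?_, ?_⟩
      · rw [hP, Finset.mem_product, Finset.mem_range, Finset.mem_Icc]
        have := abs_le.1 hiM
        refine ⟨by omega, ?_, ?_⟩
        · exact_mod_cast this.1
        · exact_mod_cast this.2
      · refine ⟨?_, ?_, hN⟩
        · simp only
          linarith
        · simp only
          linarith
    · intro j hj
      by_contra hN
      apply hc2
      simp only [mem_iUnion, Finset.mem_range]
      exact ⟨j, by omega, by linarith, by linarith, hN⟩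
    · intro z hz h5 h6
      exact hc3 ⟨by linarith, by linarith, z, hz, h5, h6⟩
  -- the measures
  have hS1 : volume (⋃ p ∈ P, (fun t : ℝ => t + (p.2 : ℝ) * (th p.1 * ra T A)) ⁻¹' BB F η T (A * th p.1)) ≤
      ENNReal.ofReal (P.card * (C1 * T * Real.exp (-(c1 * th K * A)))) := by
    refine (measure_biUnion_finset_le _ _).trans ?_
    refine (Finset.sum_le_card_nsmul P _ (ENNReal.ofReal (C1 * T * Real.exp (-(c1 * th K * A)))) ?_).trans ?_
    · intro p hp
      rw [measure_preimage_add_right]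
      rw [hP, Finset.mem_product, Finset.mem_range] at hp
      have hk : p.1 ≤ K := by have := hp.1; omega
      have hKk : th K ≤ th p.1 := by
        unfold th
        exact pow_le_pow_of_le_one (by norm_num) (by norm_num) hk
      have h1 : A * th K ≤ A * th p.1 := by gcongr
      have h2 : A * th p.1 ≤ L / 200 := by
        have := th_le p.1
        nlinarith
      refine (hsc1 T (A * th p.1) hTT1 (hAa.trans h1) (by rw [← hL]; exact h2)).trans ?_
      apply ENNReal.ofReal_le_ofReal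
      have h3 : Real.exp (-(c1 * (A * th p.1))) ≤ Real.exp (-(c1 * th K * A)) := by
        apply Real.exp_le_exp.2
        have := mul_le_mul_of_nonneg_left h1 hc1.le
        linarith
      gcongr
    · rw [nsmul_eq_mul, ← ENNReal.ofReal_natCast, ← ENNReal.ofReal_mul (Nat.cast_nonneg _)]
  have hS2 : volume (⋃ j ∈ Finset.range (J + 1), BB F η T (2 ^ j * A)) ≤
      ENNReal.ofReal (C1 * T * (Real.exp c1 * Real.exp (-(c1 * A)) * Q)) := by
    refine (measure_biUnion_finset_le _ _).trans ?_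
    have h1 : ∀ j ∈ Finset.range (J + 1), volume (BB F η T (2 ^ j * A)) ≤
        ENNReal.ofReal (C1 * T * Real.exp (-(c1 * (2 ^ j * A)))) := by
      intro j hj
      rw [Finset.mem_range] at hj
      have h2 : A ≤ 2 ^ j * A := le_mul_of_one_le_left hA0.le (one_le_pow₀ (by norm_num))
      have h3 : (2 : ℝ) ^ j * A ≤ 2 ^ J * A := by
        have : (2 : ℝ) ^ j ≤ 2 ^ J := pow_le_pow_right₀ (by norm_num) (by omega)
        gcongr
      have h4 : A * th K ≤ A := by nlinarith
      exact hsc1 T (2 ^ j * A) hTT1 (by linarith) (by rw [← hL]; linarith)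
    refine (Finset.sum_le_sum h1).trans ?_
    rw [← ENNReal.ofReal_sum_of_nonneg (fun j _ => by positivity)]
    apply ENNReal.ofReal_le_ofReal
    rw [← Finset.mul_sum]
    have hfl : 1 ≤ ⌊A⌋₊ := Nat.le_floor (by exact_mod_cast hA1)
    have h2 := geo c1 hc1 ⌊A⌋₊ (J + 1) hfl
    have h3 : ∑ j ∈ Finset.range (J + 1), Real.exp (-(c1 * (2 ^ j * A))) ≤
        Real.exp (-(c1 * ⌊A⌋₊)) * (1 / (1 - Real.exp (-c1))) := by
      refine le_trans (Finset.sum_le_sum fun j _ => ?_) h2
      apply Real.exp_le_exp.2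
      have h4 : ((⌊A⌋₊ : ℕ) : ℝ) ≤ A := Nat.floor_le hA0.le
      have h5 : (2 : ℝ) ^ j * ((⌊A⌋₊ : ℕ) : ℝ) ≤ 2 ^ j * A := by gcongr
      have := mul_le_mul_of_nonneg_left h5 hc1.le
      linarith
    rw [← hQ] at h3
    have h4 : Real.exp (-(c1 * ⌊A⌋₊)) ≤ Real.exp c1 * Real.exp (-(c1 * A)) := by
      rw [← Real.exp_add]
      apply Real.exp_le_exp.2
      have h5 := Nat.lt_floor_add_one A
      nlinarith
    calc C1 * T * ∑ j ∈ Finset.range (J + 1), Real.exp (-(c1 * (2 ^ j * A)))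
        ≤ C1 * T * (Real.exp (-(c1 * ⌊A⌋₊)) * Q) := by gcongr
      _ ≤ _ := by gcongr
  have hS3 := hfar T hTT3
  have hTc : T ^ (1 - c3) ≤ T * Real.exp (-(c3 * A)) := by
    rw [Real.rpow_sub hT0, Real.rpow_one, Real.rpow_def_of_pos hT0, div_eq_mul_inv, ← Real.exp_neg, ← hL]
    apply mul_le_mul_of_nonneg_left _ hT0.le
    apply Real.exp_le_exp.2
    have h1 : c3 * A ≤ c3 * L := mul_le_mul_of_nonneg_left (by linarith) hc3.le
    linarith
  refine (measure_mono hsub).trans ((measure_union_le _ _).trans ?_)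
  refine (add_le_add hS1 ((measure_union_le _ _).trans (add_le_add hS2 hS3))).trans ?_
  rw [← ENNReal.ofReal_add (by positivity) (by positivity), ← ENNReal.ofReal_add (by positivity) (by positivity)]
  apply ENNReal.ofReal_le_ofReal
  have e1 : Real.exp (-(c1 * th K * A)) ≤ Real.exp (-(min (c1 * th K) c3 * A)) := by
    apply Real.exp_le_exp.2
    have := mul_le_mul_of_nonneg_right (min_le_left (c1 * th K) c3) hA0.le
    linarith
  have e2 : Real.exp (-(c1 * A)) ≤ Real.exp (-(min (c1 * th K) c3 * A)) := by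
    apply Real.exp_le_exp.2
    have h1 : min (c1 * th K) c3 ≤ c1 := (min_le_left _ _).trans (by nlinarith)
    have := mul_le_mul_of_nonneg_right h1 hA0.le
    linarith
  have e3 : Real.exp (-(c3 * A)) ≤ Real.exp (-(min (c1 * th K) c3 * A)) := by
    apply Real.exp_le_exp.2
    have := mul_le_mul_of_nonneg_right (min_le_right (c1 * th K) c3) hA0.le
    linarith
  calc (P.card : ℝ) * (C1 * T * Real.exp (-(c1 * th K * A))) +
        (C1 * T * (Real.exp c1 * Real.exp (-(c1 * A)) * Q) + C3 * T ^ (1 - c3))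
      ≤ P.card * (C1 * T * Real.exp (-(min (c1 * th K) c3 * A))) +
        (C1 * T * (Real.exp c1 * Real.exp (-(min (c1 * th K) c3 * A)) * Q) +
          C3 * (T * Real.exp (-(min (c1 * th K) c3 * A)))) := by
        have := hTc.trans (mul_le_mul_of_nonneg_left e3 hT0.le)
        gcongr
    _ = _ := by ring

end Pool.Agent.Helper29K9.Clu
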