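import Pool.Agent.Helper29K9.Clu.Conc

set_option autoImplicit false

/-!
# Most windows contain the expected number of zeros: all windows up to height `T`
-/

namespace Pool.Agent.Helper29K9.Clu

open Complex Filter Topology MeasureTheory Set
open Pool.Agent.H24R2.DZ (NN ra)
open Pool.Agent.Y671.LD (DD Strip ra_eq order_const_mul)

/-- the window `(t, t + H]` contains the expected number of zeros, all near the line -/
def Gd (F : ℂ → ℂ) (ε t H L : ℝ) : Prop :=
  |(cnt F t (t + H) : ℝ) - H * L / (2 * Real.pi)| ≤ ε * H * L ∧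
    ∀ s, F s = 0 → t < s.im → s.im ≤ t + H → |s.re| ≤ ε * H

theorem exists_K {x : ℝ} (hx : 0 < x) : ∃ K : ℕ, th K / 1000 ≤ x := by
  obtain ⟨K, hK⟩ := exists_pow_lt_of_lt_one hx (by norm_num : (1 / 10 ^ 4 : ℝ) < 1)
  refine ⟨K, ?_⟩
  have := th_pos K
  have h1 : th K < x := hK
  linarith

/-- short windows -/
theorem conc1 {F : ℂ → ℂ} {B K0 : ℝ} (hD : DD B K0 F) (hstrip : Strip F B) {ε : ℝ} (hε : 0 < ε) :
    ∃ c C T0 : ℝ, 0 < c ∧ 0 < C ∧ 2 ≤ T0 ∧ ∀ T H : ℝ, T0 ≤ T → 0 ≤ H → H ≤ 1 / 100 →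
      volume {t : ℝ | T < t ∧ t ≤ 5 / 2 * T ∧ ¬ Gd F ε t H (Real.log T)} ≤
        ENNReal.ofReal (C * T * Real.exp (-(c * H * Real.log T))) := by
  obtain ⟨δ, hδ⟩ : ∃ δ : ℝ, δ = min (1 / 40) (ε / 100) := ⟨_, rfl⟩
  have hδ0 : 0 < δ := by rw [hδ]; exact lt_min (by norm_num) (by positivity)
  have hδ1 : δ ≤ 1 / 40 := by rw [hδ]; exact min_le_left _ _
  have hδ2 : δ ≤ ε / 100 := by rw [hδ]; exact min_le_right _ _
  obtain ⟨K, hK⟩ := exists_K (pow_pos hδ0 2)
  obtain ⟨c, C, A0, T0, hc, hC, hA0, hT0, hmeas⟩ := gh_meas hD hstrip hδ0 K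
  refine ⟨c / 2, C + 2 * Real.exp (c * A0), T0, by positivity, by positivity, hT0, ?_⟩
  intro T H hT hH0 hH1
  have hT2 : 2 ≤ T := hT0.trans hT
  have hTp : 0 < T := by linarith
  obtain ⟨L, hL⟩ : ∃ L : ℝ, L = Real.log T := ⟨_, rfl⟩
  rw [← hL]
  have hLp : 0 < L := by rw [hL]; exact Real.log_pos (by linarith)
  obtain ⟨A, hA⟩ : ∃ A : ℝ, A = H * L / 2 := ⟨_, rfl⟩
  have hAn : 0 ≤ A := by rw [hA]; positivity
  have hcA : c / 2 * H * L = c * A := by rw [hA]; ring
  rw [hcA]
  rcases lt_or_ge A A0 with h | h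
  · -- trivial bound
    have h1 : volume {t : ℝ | T < t ∧ t ≤ 5 / 2 * T ∧ ¬ Gd F ε t H L} ≤ ENNReal.ofReal (2 * T) := by
      refine (measure_mono (t := Ioc T (5 / 2 * T)) fun t ht => ⟨ht.1, ht.2.1⟩).trans ?_
      rw [Real.volume_Ioc]
      apply ENNReal.ofReal_le_ofReal
      linarith
    refine h1.trans (ENNReal.ofReal_le_ofReal ?_)
    have h2 : 1 ≤ Real.exp (c * A0) * Real.exp (-(c * A)) := by
      rw [← Real.exp_add]
      apply Real.one_le_exp
      nlinarith
    have h3 : 0 ≤ C * T * Real.exp (-(c * A)) := by positivity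
    calc 2 * T ≤ 2 * T * (Real.exp (c * A0) * Real.exp (-(c * A))) := le_mul_of_one_le_right (by positivity) h2
      _ ≤ 2 * T * (Real.exp (c * A0) * Real.exp (-(c * A))) + C * T * Real.exp (-(c * A)) := by linarith
      _ = _ := by ring
  · have hAL : A ≤ Real.log T / 200 := by
      rw [← hL, hA]
      nlinarith
    obtain ⟨J, hJ, hm⟩ := hmeas T A hT h hAL
    have hAp : 0 < A := by linarith
    have hra : ra T A = H := by
      rw [ra_eq, ← hL, hA]
      field_simp
    refine (measure_mono ?_).trans (hm.trans (ENNReal.ofReal_le_ofReal ?_))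
    · rintro t ⟨h1, h2, h3⟩
      refine ⟨h1, h2, fun hGH => h3 ?_⟩
      obtain ⟨h4, h5⟩ := gh_spec hD.diff hT2 hAp hδ0 hδ1 le_rfl hK hJ (by rw [hra]; linarith) hGH
      rw [hra] at h4 h5
      have hHp : 0 < H := by
        rcases hH0.lt_or_eq with h6 | h6
        · exact h6
        · rw [← h6] at hA
          rw [hA] at hAp
          linarith
      constructor
      · have e1 : A / Real.pi = H * L / (2 * Real.pi) := by
          rw [hA]
          field_simp
        rw [← e1]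
        refine h4.trans ?_
        rw [hA]
        have : H * L * δ ≤ H * L * (ε / 100) := by gcongr
        nlinarith
      · intro s hs h6 h7
        refine (h5 s hs h6 h7).trans ?_
        have : δ ≤ ε := by linarith
        gcongr
    · have : 0 ≤ 2 * Real.exp (c * A0) * T * Real.exp (-(c * A)) := by positivity
      linarith

/-- sums of windows -/
theorem gd_sum {F : ℂ → ℂ} (hfin : ∀ a b, (zs F a b).Finite) {ε t H L : ℝ} (hH : 0 ≤ H) : ∀ m : ℕ,
    (∀ i < m, Gd F ε (t + i * H) H L) →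
    |(cnt F t (t + m * H) : ℝ) - m * H * L / (2 * Real.pi)| ≤ ε * (m * H) * L ∧
      ∀ s, F s = 0 → t < s.im → s.im ≤ t + m * H → |s.re| ≤ ε * H := by
  intro m
  induction m with
  | zero =>
    intro _
    refine ⟨?_, ?_⟩
    · simp [cnt_self]
    · intro s _ h1 h2
      simp only [Nat.cast_zero, zero_mul, add_zero] at h2
      linarith
  | succ m ih =>
    intro h
    obtain ⟨h1, h2⟩ := ih fun i hi => h i (by omega)
    obtain ⟨h3, h4⟩ := h m (by omega)
    have hmH : 0 ≤ (m : ℝ) * H := by positivity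
    have e : t + ((m + 1 : ℕ) : ℝ) * H = t + m * H + H := by push_cast; ring
    refine ⟨?_, ?_⟩
    · rw [e, cnt_add hfin (by linarith : t ≤ t + m * H) (by linarith : t + m * H ≤ t + m * H + H)]
      push_cast
      have e2 : (cnt F t (t + m * H) : ℝ) + cnt F (t + m * H) (t + m * H + H) - (m + 1) * H * L / (2 * Real.pi) =
          ((cnt F t (t + m * H) : ℝ) - m * H * L / (2 * Real.pi)) +
            (cnt F (t + m * H) (t + m * H + H) - H * L / (2 * Real.pi)) := by ring
      rw [e2]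
      refine (abs_add_le _ _).trans ?_
      refine (add_le_add h1 h3).trans (le_of_eq ?_)
      ring
    · intro s hs h5 h6
      rcases le_or_gt s.im (t + m * H) with h7 | h7
      · exact h2 s hs h5 h7
      · rw [e] at h6
        exact h4 s hs h7 h6

/-- windows of bounded length -/
theorem conc2 {F : ℂ → ℂ} {B K0 : ℝ} (hD : DD B K0 F) (hstrip : Strip F B) {ε D : ℝ} (hε : 0 < ε) (hD0 : 0 < D) :
    ∃ c C T0 : ℝ, 0 < c ∧ 0 < C ∧ 2 ≤ T0 ∧ ∀ T H : ℝ, T0 ≤ T → 0 ≤ H → H ≤ D →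
      volume {t : ℝ | T < t ∧ t ≤ 2 * T ∧ ¬ Gd F ε t H (Real.log T)} ≤
        ENNReal.ofReal (C * T * Real.exp (-(c * H * Real.log T))) := by
  have hfin : ∀ a b, (zs F a b).Finite := zs_fin hD.diff (p := 10 * B) (by
    have := hD.ne 0
    rwa [iteratedDeriv_zero] at this) (B := B) (fun z hz => hstrip 0 z (by rw [iteratedDeriv_zero]; exact hz))
  obtain ⟨c, C, T0, hc, hC, hT0, h1⟩ := conc1 hD hstrip hε
  obtain ⟨n, hn⟩ : ∃ n : ℕ, n = ⌈100 * D⌉₊ + 1 := ⟨_, rfl⟩
  have hn0 : (0 : ℝ) < n := by rw [hn]; positivity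
  have hnD : 100 * D ≤ n := by
    rw [hn]
    push_cast
    have := Nat.le_ceil (100 * D)
    linarith
  refine ⟨c / n, n * C, max T0 (2 * D), by positivity, by positivity, hT0.trans (le_max_left _ _), ?_⟩
  intro T H hT hH0 hHD
  have hTT0 : T0 ≤ T := (le_max_left _ _).trans hT
  have hTD : 2 * D ≤ T := (le_max_right _ _).trans hT
  have hT2 : 2 ≤ T := hT0.trans hTT0
  obtain ⟨H', hH'⟩ : ∃ H' : ℝ, H' = H / n := ⟨_, rfl⟩
  have hH'0 : 0 ≤ H' := by rw [hH']; positivity
  have hH'1 : H' ≤ 1 / 100 := by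
    rw [hH', div_le_iff₀ hn0]
    linarith
  have hnH : (n : ℝ) * H' = H := by rw [hH']; field_simp
  have hH'H : H' ≤ H := by
    rw [hH']
    apply div_le_self hH0
    rw [hn]
    push_cast
    have : (0 : ℝ) ≤ ⌈100 * D⌉₊ := Nat.cast_nonneg _
    linarith
  have hsub : {t : ℝ | T < t ∧ t ≤ 2 * T ∧ ¬ Gd F ε t H (Real.log T)} ⊆
      ⋃ i ∈ Finset.range n, (fun t : ℝ => t + (i : ℝ) * H') ⁻¹'
        {t : ℝ | T < t ∧ t ≤ 5 / 2 * T ∧ ¬ Gd F ε t H' (Real.log T)} := by
    rintro t ⟨h2, h3, h4⟩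
    by_contra hcon
    apply h4
    have h5 : ∀ i < n, Gd F ε (t + i * H') H' (Real.log T) := by
      intro i hi
      by_contra h6
      apply hcon
      simp only [mem_iUnion, Finset.mem_range]
      have h7 : (i : ℝ) * H' ≤ H := by
        rw [← hnH]
        have : (i : ℝ) ≤ n := by exact_mod_cast hi.le
        gcongr
      have h8 : 0 ≤ (i : ℝ) * H' := by positivity
      refine ⟨i, hi, ?_, ?_, h6⟩
      · simp only
        linarith
      · simp only
        linarith
    obtain ⟨h6, h7⟩ := gd_sum hfin hH'0 n h5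
    rw [hnH] at h6 h7
    exact ⟨h6, fun s hs h8 h9 => (h7 s hs h8 h9).trans (by gcongr)⟩
  refine (measure_mono hsub).trans ((measure_biUnion_finset_le _ _).trans ?_)
  refine (Finset.sum_le_card_nsmul _ _ (ENNReal.ofReal (C * T * Real.exp (-(c * H' * Real.log T)))) ?_).trans ?_
  · intro i _
    rw [measure_preimage_add_right]
    exact h1 T H' hTT0 hH'0 hH'1
  · rw [Finset.card_range, nsmul_eq_mul, ← ENNReal.ofReal_natCast, ← ENNReal.ofReal_mul (Nat.cast_nonneg _)]
    apply ENNReal.ofReal_le_ofReal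
    have e : c * H' * Real.log T = c / n * H * Real.log T := by rw [hH']; ring
    rw [e]
    exact le_of_eq (by ring)

/-- all windows up to height `T` -/
theorem conc3 {F : ℂ → ℂ} {B K0 : ℝ} (hD : DD B K0 F) (hstrip : Strip F B) {ε D : ℝ} (hε : 0 < ε) (hD0 : 0 < D) :
    ∃ c C : ℝ, 0 < c ∧ 0 < C ∧ ∀ T H : ℝ, 2 ≤ T → 0 ≤ H → H ≤ D →
      volume {t : ℝ | 0 ≤ t ∧ t ≤ T ∧ ¬ Gd F ε t H (Real.log T)} ≤
        ENNReal.ofReal (C * T * Real.exp (-(c * H * Real.log T))) := by
  obtain ⟨ε1, hε1⟩ : ∃ ε1 : ℝ, ε1 = ε / 2 := ⟨_, rfl⟩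
  have hε1p : 0 < ε1 := by rw [hε1]; positivity
  obtain ⟨ε2, hε2⟩ : ∃ ε2 : ℝ, ε2 = min (1 / 2) ε1 := ⟨_, rfl⟩
  have hε2p : 0 < ε2 := by rw [hε2]; exact lt_min (by norm_num) hε1p
  have hε2h : ε2 ≤ 1 / 2 := by rw [hε2]; exact min_le_left _ _
  have hε2e : ε2 ≤ ε1 := by rw [hε2]; exact min_le_right _ _
  obtain ⟨c2, C2, T2, hc2, hC2, hT2, h2⟩ := conc2 hD hstrip hε1p hD0
  obtain ⟨c, hc⟩ : ∃ c : ℝ, c = min (c2 / 2) (ε2 / D) := ⟨_, rfl⟩
  have hcp : 0 < c := by rw [hc]; exact lt_min (by positivity) (by positivity)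
  have hcl : c ≤ c2 / 2 := by rw [hc]; exact min_le_left _ _
  have hcr : c ≤ ε2 / D := by rw [hc]; exact min_le_right _ _
  obtain ⟨E, hE⟩ : ∃ E : ℝ, E = D * Real.log (T2 ^ 2) := ⟨_, rfl⟩
  refine ⟨c, C2 + 2 + Real.exp (c * E), hcp, by positivity, ?_⟩
  intro T H hT hH0 hHD
  have hTp : 0 < T := by linarith
  obtain ⟨L, hL⟩ : ∃ L : ℝ, L = Real.log T := ⟨_, rfl⟩
  rw [← hL]
  have hLp : 0 < L := by rw [hL]; exact Real.log_pos (by linarith)
  have hHL : 0 ≤ H * L := by positivity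
  rcases lt_or_ge T (T2 ^ 2) with hTs | hTs
  · have h1 : volume {t : ℝ | 0 ≤ t ∧ t ≤ T ∧ ¬ Gd F ε t H L} ≤ ENNReal.ofReal T := by
      refine (measure_mono (t := Icc 0 T) fun t ht => ⟨ht.1, ht.2.1⟩).trans ?_
      rw [Real.volume_Icc, sub_zero]
    refine h1.trans (ENNReal.ofReal_le_ofReal ?_)
    have h3 : H * L ≤ E := by
      rw [hE]
      have : L ≤ Real.log (T2 ^ 2) := by rw [hL]; exact Real.log_le_log hTp hTs.le
      gcongr
    have h4 : 1 ≤ Real.exp (c * E) * Real.exp (-(c * H * L)) := by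
      rw [← Real.exp_add]
      apply Real.one_le_exp
      nlinarith
    have h5 : 0 ≤ (C2 + 2) * T * Real.exp (-(c * H * L)) := by positivity
    calc T ≤ T * (Real.exp (c * E) * Real.exp (-(c * H * L))) := le_mul_of_one_le_right hTp.le h4
      _ ≤ T * (Real.exp (c * E) * Real.exp (-(c * H * L))) + (C2 + 2) * T * Real.exp (-(c * H * L)) := by linarith
      _ = _ := by ring
  · -- the main case
    have hTe : T ^ (1 - ε2) = T * Real.exp (-(ε2 * L)) := by
      rw [Real.rpow_sub hTp, Real.rpow_one, Real.rpow_def_of_pos hTp, div_eq_mul_inv, ← Real.exp_neg, ← hL]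
      congr 3
      ring
    have hT2e : T2 ≤ T ^ (1 - ε2) := by
      have h3 : T2 = (T2 ^ 2) ^ (1 / 2 : ℝ) := by
        rw [← Real.sqrt_eq_rpow, Real.sqrt_sq (by linarith)]
      have h4 : (T2 ^ 2) ^ (1 / 2 : ℝ) ≤ T ^ (1 / 2 : ℝ) := Real.rpow_le_rpow (by positivity) hTs (by norm_num)
      have h5 : T ^ (1 / 2 : ℝ) ≤ T ^ (1 - ε2) := Real.rpow_le_rpow_of_exponent_le (by linarith) (by linarith)
      linarith
    have hsub : {t : ℝ | 0 ≤ t ∧ t ≤ T ∧ ¬ Gd F ε t H L} ⊆ Icc 0 (2 * T ^ (1 - ε2)) ∪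
        ⋃ k : ℕ, {t : ℝ | T ^ (1 - ε2) ≤ T / 2 ^ (k + 1) ∧ T / 2 ^ (k + 1) < t ∧ t ≤ 2 * (T / 2 ^ (k + 1)) ∧
          ¬ Gd F ε1 t H (Real.log (T / 2 ^ (k + 1)))} := by
      rintro t ⟨h3, h4, h5⟩
      rcases le_or_gt t (2 * T ^ (1 - ε2)) with h6 | h6
      · exact Or.inl ⟨h3, h6⟩
      · right
        have htp : 0 < t := by
          have : 0 < T ^ (1 - ε2) := Real.rpow_pos_of_pos hTp _
          linarith
        have h7 : 1 ≤ T / t := by rw [le_div_iff₀ htp]; linarith
        obtain ⟨k, h8, h9⟩ := exists_nat_pow_near h7 (by norm_num : (1 : ℝ) < 2)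
        rw [le_div_iff₀ htp] at h8
        rw [div_lt_iff₀ htp] at h9
        have h10 : T / 2 ^ (k + 1) < t := by
          rw [div_lt_iff₀ (by positivity)]
          linarith
        have h11 : t ≤ 2 * (T / 2 ^ (k + 1)) := by
          have e : 2 * (T / 2 ^ (k + 1)) = T / 2 ^ k := by
            rw [pow_succ]
            field_simp
          rw [e, le_div_iff₀ (by positivity)]
          linarith
        have h12 : T ^ (1 - ε2) ≤ T / 2 ^ (k + 1) := by linarith
        rw [mem_iUnion]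
        refine ⟨k, h12, h10, h11, fun hG => h5 ?_⟩
        -- the comparison of the logarithms
        have hTk : 0 < T / 2 ^ (k + 1) := by positivity
        have hlk1 : (1 - ε2) * L ≤ Real.log (T / 2 ^ (k + 1)) := by
          have := Real.log_le_log (Real.rpow_pos_of_pos hTp _) h12
          rwa [Real.log_rpow hTp, ← hL] at this
        have hlk2 : Real.log (T / 2 ^ (k + 1)) ≤ L := by
          rw [hL]
          apply Real.log_le_log hTk
          apply div_le_self hTp.le
          exact one_le_pow₀ (by norm_num)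
        obtain ⟨Lk, hLk⟩ : ∃ Lk : ℝ, Lk = Real.log (T / 2 ^ (k + 1)) := ⟨_, rfl⟩
        rw [← hLk] at hG hlk1 hlk2
        obtain ⟨g1, g2⟩ := hG
        refine ⟨?_, fun s hs k1 k2 => (g2 s hs k1 k2).trans ?_⟩
        · have e : (cnt F t (t + H) : ℝ) - H * L / (2 * Real.pi) =
              ((cnt F t (t + H) : ℝ) - H * Lk / (2 * Real.pi)) + (-(H * (L - Lk) / (2 * Real.pi))) := by
            ring
          rw [e]
          refine (abs_add_le _ _).trans ?_
          have hpi := Real.pi_gt_three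
          have e2 : |(-(H * (L - Lk) / (2 * Real.pi)))| ≤ ε1 * H * L := by
            rw [abs_neg, abs_of_nonneg (by have : 0 ≤ L - Lk := by linarith
                                           positivity)]
            rw [div_le_iff₀ (by positivity)]
            have h13 : H * (L - Lk) ≤ H * (ε1 * L) := by
              apply mul_le_mul_of_nonneg_left _ hH0
              nlinarith
            have h14 : 0 ≤ ε1 * H * L := by positivity
            nlinarith
          have e3 : ε1 * H * Lk ≤ ε1 * H * L := by gcongr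
          have e4 : ε * H * L = ε1 * H * L + ε1 * H * L := by rw [hε1]; ring
          linarith
        · have : ε1 ≤ ε := by rw [hε1]; linarith
          gcongr
    obtain ⟨M, hM⟩ : ∃ M : ℝ, M = C2 * T * Real.exp (-(c2 / 2 * H * L)) := ⟨_, rfl⟩
    have hMp : 0 < M := by rw [hM]; positivity
    have hk : ∀ k : ℕ, volume {t : ℝ | T ^ (1 - ε2) ≤ T / 2 ^ (k + 1) ∧ T / 2 ^ (k + 1) < t ∧
        t ≤ 2 * (T / 2 ^ (k + 1)) ∧ ¬ Gd F ε1 t H (Real.log (T / 2 ^ (k + 1)))} ≤
          ENNReal.ofReal (M / 2 * (1 / 2) ^ k) := by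
      intro k
      by_cases h12 : T ^ (1 - ε2) ≤ T / 2 ^ (k + 1)
      · have h3 := h2 (T / 2 ^ (k + 1)) H (hT2e.trans h12) hH0 hHD
        refine (measure_mono ?_).trans (h3.trans (ENNReal.ofReal_le_ofReal ?_))
        · rintro t ⟨-, k1, k2, k3⟩
          exact ⟨k1, k2, k3⟩
        · have hlk1 : L / 2 ≤ Real.log (T / 2 ^ (k + 1)) := by
            have := Real.log_le_log (Real.rpow_pos_of_pos hTp _) h12
            rw [Real.log_rpow hTp, ← hL] at this
            nlinarith
          have h4 : Real.exp (-(c2 * H * Real.log (T / 2 ^ (k + 1)))) ≤ Real.exp (-(c2 / 2 * H * L)) := by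
            apply Real.exp_le_exp.2
            have : c2 * H * (L / 2) ≤ c2 * H * Real.log (T / 2 ^ (k + 1)) := by gcongr
            linarith
          have e : M / 2 * (1 / 2) ^ k = C2 * (T / 2 ^ (k + 1)) * Real.exp (-(c2 / 2 * H * L)) := by
            rw [hM, pow_succ, one_div, inv_pow]
            field_simp
          rw [e]
          gcongr
      · have h3 : {t : ℝ | T ^ (1 - ε2) ≤ T / 2 ^ (k + 1) ∧ T / 2 ^ (k + 1) < t ∧
            t ≤ 2 * (T / 2 ^ (k + 1)) ∧ ¬ Gd F ε1 t H (Real.log (T / 2 ^ (k + 1)))} = ∅ := by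
          rw [Set.eq_empty_iff_forall_notMem]
          rintro t ⟨k1, -⟩
          exact h12 k1
        rw [h3, measure_empty]
        exact zero_le
    have hU : volume (⋃ k : ℕ, {t : ℝ | T ^ (1 - ε2) ≤ T / 2 ^ (k + 1) ∧ T / 2 ^ (k + 1) < t ∧
        t ≤ 2 * (T / 2 ^ (k + 1)) ∧ ¬ Gd F ε1 t H (Real.log (T / 2 ^ (k + 1)))}) ≤ ENNReal.ofReal M := by
      refine (measure_iUnion_le _).trans ((ENNReal.tsum_le_tsum hk).trans ?_)
      rw [← ENNReal.ofReal_tsum_of_nonneg (fun k => by positivity)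
        ((summable_geometric_two).mul_left _), tsum_mul_left, tsum_geometric_two]
      exact le_of_eq (by congr 1; ring)
    refine (measure_mono hsub).trans ((measure_union_le _ _).trans ?_)
    have hI : volume (Icc 0 (2 * T ^ (1 - ε2))) = ENNReal.ofReal (2 * T ^ (1 - ε2)) := by
      rw [Real.volume_Icc, sub_zero]
    rw [hI]
    refine (add_le_add le_rfl hU).trans ?_
    rw [← ENNReal.ofReal_add (by positivity) hMp.le]
    apply ENNReal.ofReal_le_ofReal
    have e1 : Real.exp (-(ε2 * L)) ≤ Real.exp (-(c * H * L)) := by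
      apply Real.exp_le_exp.2
      have h3 : c * H ≤ ε2 := by
        calc c * H ≤ ε2 / D * D := by gcongr
          _ = ε2 := by field_simp
      have h4 := mul_le_mul_of_nonneg_right h3 hLp.le
      exact neg_le_neg h4
    have e2 : Real.exp (-(c2 / 2 * H * L)) ≤ Real.exp (-(c * H * L)) := by
      apply Real.exp_le_exp.2
      have h3 := mul_le_mul_of_nonneg_right hcl hHL
      have e3 : c * H * L = c * (H * L) := by ring
      have e4 : c2 / 2 * H * L = c2 / 2 * (H * L) := by ring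
      rw [e3, e4]
      exact neg_le_neg h3
    rw [hTe, hM]
    have e3 : 0 ≤ Real.exp (c * E) * T * Real.exp (-(c * H * L)) := by positivity
    calc 2 * (T * Real.exp (-(ε2 * L))) + C2 * T * Real.exp (-(c2 / 2 * H * L))
        ≤ 2 * (T * Real.exp (-(c * H * L))) + C2 * T * Real.exp (-(c * H * L)) := by gcongr
      _ ≤ 2 * (T * Real.exp (-(c * H * L))) + C2 * T * Real.exp (-(c * H * L)) +
          Real.exp (c * E) * T * Real.exp (-(c * H * L)) := by linarith
      _ = _ := by ring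

/-- counting and affine maps -/
theorem cnt_affine {G : ℂ → ℂ} (hG : Differentiable ℂ G) {u : ℂ} (hu : u ≠ 0) (a : ℝ) {r : ℝ} (hr : 0 < r)
    (t1 t2 : ℝ) : cnt (fun z => u * G (a + r * z)) t1 t2 = cnt G (r * t1) (r * t2) := by
  have hrc : (r : ℂ) ≠ 0 := by exact_mod_cast hr.ne'
  have h1 : zs G (r * t1) (r * t2) = (fun z : ℂ => (a : ℂ) + r * z) '' zs (fun z => u * G (a + r * z)) t1 t2 := by
    ext s
    rw [Set.mem_image]
    constructor
    · rintro ⟨h1, h2, h3⟩
      have e : (a : ℂ) + r * ((s - a) / r) = s := by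
        field_simp
        ring
      have him : ((s - a) / (r : ℂ)).im = s.im / r := by
        rw [Complex.div_ofReal_im]
        simp
      refine ⟨(s - a) / r, ⟨?_, ?_, ?_⟩, e⟩
      · simp only [e, h1, mul_zero]
      · rw [him, lt_div_iff₀ hr]
        linarith
      · rw [him, div_le_iff₀ hr]
        linarith
    · rintro ⟨z, ⟨h1, h2, h3⟩, rfl⟩
      have him : ((a : ℂ) + r * z).im = r * z.im := by simp
      refine ⟨(mul_eq_zero.1 h1).resolve_left hu, ?_, ?_⟩
      · rw [him]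
        gcongr
      · rw [him]
        gcongr
  unfold cnt
  rw [h1, finsum_mem_image (fun x _ y _ hxy => mul_left_cancel₀ hrc (add_left_cancel hxy))]
  refine finsum_mem_congr rfl fun s _ => ?_
  have hd : Differentiable ℂ (fun z : ℂ => G (a + r * z)) := hG.comp (by fun_prop)
  rw [order_const_mul hu s (hd.analyticAt s)]
  exact order_affine hG _ hrc s

end Pool.Agent.Helper29K9.Clu
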