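import Mathlib

set_option autoImplicit false

/-!
# Existence of zeros of a function which looks like `exp (a z)` plus its reflection
-/

namespace Pool.Agent.Helper29K9.Clu

open Complex Metric Set

/-- a holomorphic function without zeros in a ball is an exponential -/
theorem exists_log {F : ℂ → ℂ} {R : ℝ} (hR : 0 < R) (hF : Differentiable ℂ F) (h0 : ∀ z ∈ ball (0 : ℂ) R, F z ≠ 0) :
    ∃ g : ℂ → ℂ, (∀ z ∈ ball (0 : ℂ) R, HasDerivAt g (logDeriv F z) z) ∧
      ∀ z ∈ ball (0 : ℂ) R, F z = F 0 * exp (g z) := by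
  have hd : DifferentiableOn ℂ (logDeriv F) (ball (0 : ℂ) R) := by
    have h1 : DifferentiableOn ℂ (deriv F) (ball (0 : ℂ) R) := hF.differentiableOn.deriv isOpen_ball
    exact h1.div hF.differentiableOn h0
  obtain ⟨g, hg⟩ := hd.isExactOn_ball
  refine ⟨fun z => g z - g 0, fun z hz => (hg z hz).sub_const _, ?_⟩
  have hmem : (0 : ℂ) ∈ ball (0 : ℂ) R := mem_ball_self hR
  have hconst : ∀ z ∈ ball (0 : ℂ) R, F z * exp (-(g z - g 0)) = F 0 * exp (-(g 0 - g 0)) := by
    intro z hz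
    have hder : ∀ w ∈ ball (0 : ℂ) R, HasDerivAt (fun w => F w * exp (-(g w - g 0))) 0 w := by
      intro w hw
      have h1 : HasDerivAt (fun w => exp (-(g w - g 0))) (exp (-(g w - g 0)) * (-(logDeriv F w))) w :=
        (((hg w hw).sub_const (g 0)).neg).cexp
      have h2 := (hF w).hasDerivAt.mul h1
      refine h2.congr_deriv ?_
      have h3 := h0 w hw
      rw [logDeriv_apply]
      field_simp
      ring
    exact (convex_ball (0 : ℂ) R).is_const_of_fderivWithin_eq_zero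
      (f := fun w => F w * exp (-(g w - g 0)))
      (fun w hw => (hder w hw).differentiableAt.differentiableWithinAt)
      (fun w hw => by
        rw [fderivWithin_of_mem_nhds (isOpen_ball.mem_nhds hw)]
        have h4 := (hder w hw).hasFDerivAt.fderiv
        rw [h4]
        ext
        simp) hz hmem
  intro z hz
  have h5 := hconst z hz
  rw [sub_self, neg_zero, Complex.exp_zero, mul_one] at h5
  rw [← h5, mul_assoc, ← Complex.exp_add, neg_add_cancel, Complex.exp_zero, mul_one]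

/-- A function with the shape of `exp (a z)` plus its reflection has a zero in `‖z‖ < 12`. -/
theorem ex_zero {a η : ℝ} {F : ℂ → ℂ} (ha : 0 < a) (hη : η ≤ 1 / 10) (hF : Differentiable ℂ F)
    (hsymm : ∀ z : ℂ, F (-((starRingEnd ℂ) z)) = (starRingEnd ℂ) (F z))
    (hfar : ∀ z : ℂ, 1 / 1000 ≤ z.re → ‖z‖ ≤ 20 → F z ≠ 0 ∧ ‖logDeriv F z - a‖ ≤ η * a)
    (hnear : ∀ z : ℂ, |z.re| ≤ 1 / 1000 → ‖z‖ ≤ 20 → ‖F z‖ ≤ ‖F 1‖ * Real.exp (-(9 / 10 * a))) :
    ∃ z : ℂ, ‖z‖ < 12 ∧ F z = 0 := by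
  by_contra hcon
  push Not at hcon
  have h0 : ∀ z ∈ ball (0 : ℂ) 12, F z ≠ 0 := fun z hz => hcon z (by simpa using hz)
  obtain ⟨g, hg, hFg⟩ := exists_log (by norm_num) hF h0
  have hηa : η * a ≤ a / 10 := by nlinarith
  -- the symmetric derivative
  have hconj : ∀ z : ℂ, ‖-((starRingEnd ℂ) z)‖ = ‖z‖ := fun z => by rw [norm_neg]; exact norm_conj z
  have hre : ∀ z : ℂ, (-((starRingEnd ℂ) z)).re = -z.re := fun z => by simp
  have him : ∀ z : ℂ, (-((starRingEnd ℂ) z)).im = z.im := fun z => by simp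
  have hR : ∀ z ∈ ball (0 : ℂ) 12, 1 / 1000 ≤ z.re → ‖logDeriv F z - a‖ ≤ a / 10 := by
    intro z hz h
    have hz' : ‖z‖ < 12 := by simpa using hz
    exact (hfar z h (by linarith)).2.trans hηa
  have hnorm : ∀ z ∈ ball (0 : ℂ) 12, ∀ w ∈ ball (0 : ℂ) 12, ‖F z‖ = ‖F w‖ * Real.exp ((g z - g w).re) := by
    intro z hz w hw
    rw [hFg z hz, hFg w hw, norm_mul, norm_mul, Complex.norm_exp, Complex.norm_exp, Complex.sub_re, mul_assoc,
      ← Real.exp_add]
    congr 2
    ring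
  -- the right part
  have hmvt : ∀ z ∈ ball (0 : ℂ) 12, ∀ w ∈ ball (0 : ℂ) 12, 1 / 1000 ≤ z.re → 1 / 1000 ≤ w.re →
      ‖g z - g w - a * (z - w)‖ ≤ a / 10 * ‖z - w‖ := by
    intro z hz w hw h1 h2
    have hcv : Convex ℝ (ball (0 : ℂ) 12 ∩ {z | 1 / 1000 ≤ z.re}) :=
      (convex_ball _ _).inter (convex_halfSpace_re_ge _)
    have h3 := hcv.norm_image_sub_le_of_norm_hasDerivWithin_le (f := fun z => g z - a * z)
      (f' := fun z => logDeriv F z - a) (C := a / 10) (x := w) (y := z)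
      (fun x hx => by
        have h4 : HasDerivAt (fun z : ℂ => (a : ℂ) * z) (a : ℂ) x := by
          simpa using (hasDerivAt_id x).const_mul (a : ℂ)
        exact ((hg x hx.1).sub h4).hasDerivWithinAt)
      (fun x hx => hR x hx.1 hx.2) ⟨hw, h2⟩ ⟨hz, h1⟩
    have h5 : (g z - a * z) - (g w - a * w) = g z - g w - a * (z - w) := by ring
    rwa [h5] at h3
  have h1mem : (1 : ℂ) ∈ ball (0 : ℂ) 12 := by simp
  -- the size of `F`
  have hup : ∀ z ∈ ball (0 : ℂ) 12, (g z - g 1).re ≤ 13 * a := by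
    have hF1 : 0 < ‖F 1‖ := norm_pos_iff.2 (h0 1 h1mem)
    have key : ∀ z ∈ ball (0 : ℂ) 12, 1 / 1000 ≤ z.re → (g z - g 1).re ≤ 13 * a := by
      intro z hz h
      have hz' : ‖z‖ < 12 := by simpa using hz
      have h1 := hmvt z hz 1 h1mem h (by norm_num)
      have h2 : (g z - g 1 - a * (z - 1)).re ≤ ‖g z - g 1 - a * (z - 1)‖ := re_le_norm _
      have h3 : (g z - g 1 - a * (z - 1)).re = (g z - g 1).re - a * (z.re - 1) := by
        simp
      have h4 : ‖z - 1‖ ≤ 13 := by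
        have := norm_sub_le z 1
        simp only [norm_one] at this
        linarith
      have h5 : z.re ≤ 12 := (re_le_norm z).trans hz'.le
      have h6 : a / 10 * ‖z - 1‖ ≤ a / 10 * 13 := mul_le_mul_of_nonneg_left h4 (by positivity)
      have h7 : a * (z.re - 1) ≤ a * 11 := mul_le_mul_of_nonneg_left (by linarith) ha.le
      linarith
    intro z hz
    have hz' : ‖z‖ < 12 := by simpa using hz
    rcases le_total (1 / 1000) z.re with h | h
    · exact key z hz h
    · rcases le_total (-(1 / 1000)) z.re with h' | h'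
      · have h1 := hnear z (abs_le.2 ⟨h', h⟩) (by linarith)
        rw [hnorm z hz 1 h1mem] at h1
        have h2 := (mul_le_mul_iff_right₀ hF1).1 h1
        have h3 := Real.exp_le_exp.1 h2
        linarith
      · have hz2 : -((starRingEnd ℂ) z) ∈ ball (0 : ℂ) 12 := by
          rw [mem_ball_zero_iff, hconj]; exact hz'
        have h1 := key _ hz2 (by rw [hre]; linarith)
        have h2 : ‖F (-((starRingEnd ℂ) z))‖ = ‖F z‖ := by rw [hsymm]; exact norm_conj _
        have h3 := hnorm _ hz2 1 h1mem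
        have h4 := hnorm z hz 1 h1mem
        rw [h2, h4] at h3
        have h5 := mul_left_cancel₀ hF1.ne' h3
        have h6 := Real.exp_injective h5
        linarith
  -- the lower bound on the line `Re z = 1 / 1000`
  have hlow : ∀ y : ℝ, |y| ≤ 5 → -(2 * a) ≤ (g ⟨1 / 1000, y⟩ - g 1).re := by
    intro y hy
    have hn : ‖(⟨1 / 1000, y⟩ : ℂ)‖ ≤ 6 := by
      have := Complex.norm_le_abs_re_add_abs_im (⟨1 / 1000, y⟩ : ℂ)
      simp only at this
      rw [abs_of_pos (by norm_num : (0 : ℝ) < 1 / 1000)] at this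
      linarith
    have hm : (⟨1 / 1000, y⟩ : ℂ) ∈ ball (0 : ℂ) 12 := by
      rw [mem_ball_zero_iff]; linarith
    have h1 := hmvt _ hm 1 h1mem le_rfl (by norm_num)
    have h2 : -‖g ⟨1 / 1000, y⟩ - g 1 - a * ((⟨1 / 1000, y⟩ : ℂ) - 1)‖ ≤
        (g ⟨1 / 1000, y⟩ - g 1 - a * ((⟨1 / 1000, y⟩ : ℂ) - 1)).re :=
      neg_le_of_abs_le (Complex.abs_re_le_norm _)
    have h3 : (g ⟨1 / 1000, y⟩ - g 1 - a * ((⟨1 / 1000, y⟩ : ℂ) - 1)).re =
        (g ⟨1 / 1000, y⟩ - g 1).re - a * (1 / 1000 - 1) := by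
      simp
    have h4 : ‖(⟨1 / 1000, y⟩ : ℂ) - 1‖ ≤ 7 := by
      have := norm_sub_le (⟨1 / 1000, y⟩ : ℂ) 1
      simp only [norm_one] at this
      linarith
    have h6 : a / 10 * ‖(⟨1 / 1000, y⟩ : ℂ) - 1‖ ≤ a / 10 * 7 := mul_le_mul_of_nonneg_left h4 (by positivity)
    linarith
  -- crossing the imaginary axis
  have hcross : ∀ y : ℝ, |y| ≤ 5 → ‖g ⟨-(1 / 1000), y⟩ - g ⟨1 / 1000, y⟩‖ ≤ a := by
    intro y hy
    have hn : ‖(⟨1 / 1000, y⟩ : ℂ)‖ ≤ 6 := by
      have := Complex.norm_le_abs_re_add_abs_im (⟨1 / 1000, y⟩ : ℂ)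
      simp only at this
      rw [abs_of_pos (by norm_num : (0 : ℝ) < 1 / 1000)] at this
      linarith
    obtain ⟨p, hp⟩ : ∃ p : ℂ, p = ⟨1 / 1000, y⟩ := ⟨_, rfl⟩
    have hq : (⟨-(1 / 1000), y⟩ : ℂ) = p + ((-(2 / 1000) : ℝ) : ℂ) := by
      rw [hp]
      apply Complex.ext
      · simp; norm_num
      · simp
    rw [← hp] at hn
    have hpm : ∀ w : ℂ, ‖w‖ < 5 → p + w ∈ ball (0 : ℂ) 12 := by
      intro w hw
      rw [mem_ball_zero_iff]
      have := norm_add_le p w
      linarith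
    have hpm0 : p ∈ ball (0 : ℂ) 12 := by
      have := hpm 0 (by simp)
      rwa [add_zero] at this
    have h1 := borelCaratheodory_zero (f := fun w => g (p + w) - g p) (M := 16 * a) (R := 5)
      (z := ((-(2 / 1000) : ℝ) : ℂ)) (by positivity) (by
        intro w hw
        have hw' : ‖w‖ < 5 := by simpa using hw
        have h2 : HasDerivAt (fun w => g (p + w)) (logDeriv F (p + w)) w := (hg (p + w) (hpm w hw')).comp_const_add p w
        exact ((h2.sub_const _).differentiableAt).differentiableWithinAt) (by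
        intro w hw
        have hw' : ‖w‖ < 5 := by simpa using hw
        have h2 := hup (p + w) (hpm w hw')
        have h3 := hlow y hy
        rw [← hp] at h3
        show (g (p + w) - g p).re ≤ 16 * a
        rw [Complex.sub_re] at h2 h3 ⊢
        linarith) (by norm_num) (by
        rw [mem_ball_zero_iff, Complex.norm_real, Real.norm_eq_abs]
        norm_num) (by simp)
    have hnn : ‖((-(2 / 1000) : ℝ) : ℂ)‖ = 2 / 1000 := by
      rw [Complex.norm_real, Real.norm_eq_abs]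
      norm_num
    rw [hnn] at h1
    rw [← hp, hq]
    refine h1.trans ?_
    rw [div_le_iff₀ (by norm_num)]
    linarith
  -- the vertical segments
  have hmem : ∀ x y : ℝ, |x| ≤ 1 → |y| ≤ 5 → (⟨x, y⟩ : ℂ) ∈ ball (0 : ℂ) 12 := by
    intro x y hx hy
    rw [mem_ball_zero_iff]
    have := Complex.norm_le_abs_re_add_abs_im (⟨x, y⟩ : ℂ)
    simp only at this
    linarith
  have h5 : |(5 : ℝ)| ≤ 5 := by norm_num
  have h5' : |(-5 : ℝ)| ≤ 5 := by norm_num
  have hx : |(1 / 1000 : ℝ)| ≤ 1 := by norm_num [abs_of_pos]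
  have hx' : |(-(1 / 1000) : ℝ)| ≤ 1 := by norm_num [abs_of_pos, abs_neg]
  have hright : 9 * a ≤ (g ⟨1 / 1000, 5⟩ - g ⟨1 / 1000, -5⟩).im := by
    have h1 := hmvt _ (hmem _ _ hx h5) _ (hmem _ _ hx h5') le_rfl le_rfl
    have h2 : (⟨1 / 1000, 5⟩ : ℂ) - ⟨1 / 1000, -5⟩ = ((10 : ℝ) : ℂ) * I := by
      apply Complex.ext
      · simp
      · simp; norm_num
    rw [h2] at h1
    have h3 : ‖((10 : ℝ) : ℂ) * I‖ = 10 := by
      rw [norm_mul, Complex.norm_I, mul_one, Complex.norm_real, Real.norm_eq_abs]; norm_num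
    rw [h3] at h1
    have h4 : -‖g ⟨1 / 1000, 5⟩ - g ⟨1 / 1000, -5⟩ - a * (((10 : ℝ) : ℂ) * I)‖ ≤
        (g ⟨1 / 1000, 5⟩ - g ⟨1 / 1000, -5⟩ - a * (((10 : ℝ) : ℂ) * I)).im :=
      neg_le_of_abs_le (Complex.abs_im_le_norm _)
    have h6 : (g ⟨1 / 1000, 5⟩ - g ⟨1 / 1000, -5⟩ - a * (((10 : ℝ) : ℂ) * I)).im =
        (g ⟨1 / 1000, 5⟩ - g ⟨1 / 1000, -5⟩).im - a * 10 := by
      simp
    linarith
  have hleft : (g ⟨-(1 / 1000), 5⟩ - g ⟨-(1 / 1000), -5⟩).im ≤ -(9 * a) := by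
    -- the reflected function
    have hcv : Convex ℝ (ball (0 : ℂ) 12 ∩ {z | z.re ≤ -(1 / 1000)}) :=
      (convex_ball _ _).inter (convex_halfSpace_re_le _)
    have hL : ∀ z ∈ ball (0 : ℂ) 12, z.re ≤ -(1 / 1000) → ‖logDeriv F z + a‖ ≤ a / 10 := by
      intro z hz h
      have hz' : ‖z‖ < 12 := by simpa using hz
      have hz2 : -((starRingEnd ℂ) z) ∈ ball (0 : ℂ) 12 := by
        rw [mem_ball_zero_iff, hconj]; exact hz'
      have h1 := hR _ hz2 (by rw [hre]; linarith)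
      have hder : deriv F (-((starRingEnd ℂ) z)) = -(starRingEnd ℂ) (deriv F z) := by
        have h2 : (fun w => F w) = fun w => (starRingEnd ℂ) (F (-((starRingEnd ℂ) w))) := by
          funext w
          have := hsymm (-((starRingEnd ℂ) w))
          simp only [map_neg, Complex.conj_conj, neg_neg] at this
          rw [hsymm, Complex.conj_conj]
        have h3 : HasDerivAt (fun w => (starRingEnd ℂ) (F (-((starRingEnd ℂ) w))))
            (-(starRingEnd ℂ) (deriv F z)) (-((starRingEnd ℂ) z)) := by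
          have h4 : HasDerivAt F (deriv F z) z := (hF z).hasDerivAt
          have h5 : HasDerivAt ((starRingEnd ℂ) ∘ F ∘ (starRingEnd ℂ)) ((starRingEnd ℂ) (deriv F z))
              ((starRingEnd ℂ) z) := by
            have := h4.conj_conj
            exact this
          have h6 : HasDerivAt (fun w : ℂ => -w) (-1) (-((starRingEnd ℂ) z)) := hasDerivAt_neg _
          have h7 : HasDerivAt ((starRingEnd ℂ) ∘ F ∘ (starRingEnd ℂ)) ((starRingEnd ℂ) (deriv F z))
              (-(-((starRingEnd ℂ) z))) := by rw [neg_neg]; exact h5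
          have h8 := h7.comp (-((starRingEnd ℂ) z)) h6
          have h9 : (fun w => (starRingEnd ℂ) (F (-((starRingEnd ℂ) w)))) =
              ((starRingEnd ℂ) ∘ F ∘ (starRingEnd ℂ)) ∘ fun w => -w := by
            funext w
            simp
          rw [h9]
          refine h8.congr_deriv ?_
          ring
        rw [← h2] at h3
        exact h3.deriv
      rw [logDeriv_apply, hder, hsymm] at h1
      rw [logDeriv_apply]
      have h10 : -(starRingEnd ℂ) (deriv F z) / (starRingEnd ℂ) (F z) - (a : ℂ) =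
          -(starRingEnd ℂ) (deriv F z / F z + a) := by
        rw [map_add, map_div₀, Complex.conj_ofReal]
        ring
      rw [h10, norm_neg, Complex.norm_conj] at h1
      exact h1
    have h3 := hcv.norm_image_sub_le_of_norm_hasDerivWithin_le (f := fun z => g z + a * z)
      (f' := fun z => logDeriv F z + a) (C := a / 10) (x := (⟨-(1 / 1000), -5⟩ : ℂ)) (y := (⟨-(1 / 1000), 5⟩ : ℂ))
      (fun x hx => by
        have h4 : HasDerivAt (fun z : ℂ => (a : ℂ) * z) (a : ℂ) x := by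
          simpa using (hasDerivAt_id x).const_mul (a : ℂ)
        exact ((hg x hx.1).add h4).hasDerivWithinAt)
      (fun x hx => hL x hx.1 hx.2) ⟨hmem _ _ hx' h5', by simp⟩ ⟨hmem _ _ hx' h5, by simp⟩
    have h2 : (⟨-(1 / 1000), 5⟩ : ℂ) - ⟨-(1 / 1000), -5⟩ = ((10 : ℝ) : ℂ) * I := by
      apply Complex.ext
      · simp
      · simp; norm_num
    rw [h2] at h3
    have h4 : ‖((10 : ℝ) : ℂ) * I‖ = 10 := by
      rw [norm_mul, Complex.norm_I, mul_one, Complex.norm_real, Real.norm_eq_abs]; norm_num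
    rw [h4] at h3
    have h6 : (g ⟨-(1 / 1000), 5⟩ + a * (⟨-(1 / 1000), 5⟩ : ℂ)) - (g ⟨-(1 / 1000), -5⟩ + a * (⟨-(1 / 1000), -5⟩ : ℂ)) =
        (g ⟨-(1 / 1000), 5⟩ - g ⟨-(1 / 1000), -5⟩) + a * (((10 : ℝ) : ℂ) * I) := by
      rw [← h2]; ring
    rw [h6] at h3
    have h7 : ((g ⟨-(1 / 1000), 5⟩ - g ⟨-(1 / 1000), -5⟩) + a * (((10 : ℝ) : ℂ) * I)).im ≤
        ‖(g ⟨-(1 / 1000), 5⟩ - g ⟨-(1 / 1000), -5⟩) + a * (((10 : ℝ) : ℂ) * I)‖ :=
      (le_abs_self _).trans (Complex.abs_im_le_norm _)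
    have h8 : ((g ⟨-(1 / 1000), 5⟩ - g ⟨-(1 / 1000), -5⟩) + a * (((10 : ℝ) : ℂ) * I)).im =
        (g ⟨-(1 / 1000), 5⟩ - g ⟨-(1 / 1000), -5⟩).im + a * 10 := by
      simp
    linarith
  have c1 := hcross 5 h5
  have c2 := hcross (-5) h5'
  have c3 := (Complex.abs_im_le_norm (g ⟨-(1 / 1000), 5⟩ - g ⟨1 / 1000, 5⟩)).trans c1
  have c4 := (Complex.abs_im_le_norm (g ⟨-(1 / 1000), -5⟩ - g ⟨1 / 1000, -5⟩)).trans c2
  rw [Complex.sub_im] at c3 c4 hleft hright
  have := abs_le.1 c3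
  have := abs_le.1 c4
  linarith [this.1, this.2]

end Pool.Agent.Helper29K9.Clu
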