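import Pool.Agent.Helper29K9.Clu.Conc2
import Pool.Agent.R838.TW.Cnt

set_option autoImplicit false

/-!
# Most windows contain the expected number of zeros: completed L-functions
-/

namespace Pool.Agent.Helper29K9.Clu

open Complex Filter Topology MeasureTheory Set
open scoped ComplexConjugate
open Pool.Agent.H24R2.DZ (NN ra)
open Pool.Agent.Y671.LD (DD Strip ra_eq order_const_mul)
open Pool.Agent.R838.TW (PL)
open Pool.Agent.Y671.GL
open Pool.Agent.Y693.GL

/-- the rescaled completed L-function -/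
theorem dd_of {κ : ℝ} {X : ℂ → ℂ} (hκ : 1 / 2 ≤ κ) (h : PL κ X) :
    ∃ K0 : ℝ, DD κ K0 (fun z => X (z / (2 * κ : ℝ))) ∧ Strip (fun z => X (z / (2 * κ : ℝ))) κ := by
  obtain ⟨H, Z, hG⟩ := h.gy
  have hA := h.app
  have hL := h.low
  have hκ0 : 0 < κ := by linarith
  have hb : 0 < 2 * κ := by positivity
  have hC := hG.cg.cf
  have hXd := hC.diff
  obtain ⟨F, hF⟩ : ∃ F : ℂ → ℂ, F = fun z => X (z / (2 * κ : ℝ)) := ⟨_, rfl⟩
  have hFd : Differentiable ℂ F := by rw [hF]; exact hXd.comp (by fun_prop)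
  obtain ⟨h1, h2, h3, h4, h5, h6, h7⟩ := Pool.Agent.Y412.GL.HSZ.hsz κ H X Z hκ hG.cg F _
    (by rw [hF]; push_cast; rfl) rfl
  obtain ⟨K0, hK0, N0, hlow⟩ := hL
  have happ : Pool.Agent.Y671.LD.App κ F := by rw [hF]; exact app_scale hb (by ring) hA
  obtain ⟨K1, T1, hT1, h6'⟩ := h6 (10 * κ)
  have hne := iter_ne hFd (10 * κ) K1 T1 (fun t ht => h6' t ((10 * κ : ℝ) : ℂ) ht
    (by rw [Complex.norm_real, Real.norm_eq_abs, abs_of_pos (by positivity)])
    (by rw [Complex.ofReal_re]))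
  have hst : Strip F κ := strip_of_app' hFd happ hne
  rw [← hF]
  refine ⟨max 25 K0, ?_, hst⟩
  refine ⟨hκ, le_max_left _ _, hFd, ?_, happ, ⟨_, h1, h7⟩, ?_, ?_, ?_, ?_⟩
  · intro z
    rw [hF]
    exact symm_scale hC.symm z
  · intro n hn
    have h8 := hst n _ hn
    have h9 : ((10 * κ : ℂ)).re = 10 * κ := by
      simp
    rw [h9, abs_of_pos (by positivity)] at h8
    linarith
  · refine ⟨N0, ?_⟩
    intro n hn s hs hbad
    rw [hF, bad_scale hb hXd] at hbad
    refine hlow n hn _ ?_ hbad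
    rw [Complex.div_ofReal_im, abs_div, abs_of_pos hb]
    have h8 : |s.im| / (2 * κ) ≤ |s.im| := div_le_self (abs_nonneg _) (by linarith)
    have h9 : Real.exp (n / max 25 K0) ≤ Real.exp (n / K0) := by
      apply Real.exp_le_exp.2
      exact div_le_div_of_nonneg_left (by positivity) hK0 (le_max_right _ _)
    linarith
  · rw [hF]
    exact good_scaleY hκ hG.good
  · rw [hF]
    exact top_scale hXd hκ hG.top

/-- **Most windows contain the expected number of zeros, all near the line.** -/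
theorem conc_pl {κ : ℝ} {Λ : ℂ → ℂ} {u : ℂ} (hκ : 1 / 2 ≤ κ) (hu : u ≠ 0) (hΛ : Differentiable ℂ Λ)
    {a : ℝ} (hP : PL κ (fun z => u * Λ ((a : ℂ) + z))) {ε : ℝ} (hε : 0 < ε) :
    (∀ t1 t2 : ℝ, (zs Λ t1 t2).Finite) ∧ ∃ c C : ℝ, 0 < c ∧ 0 < C ∧ ∀ h T : ℝ, 0 ≤ h → 2 ≤ T → h ≤ Real.log T →
      volume {t : ℝ | 0 ≤ t ∧ t ≤ T ∧ ¬ (|(cnt Λ t (t + h / Real.log T) : ℝ) - κ * h / Real.pi| ≤ ε * h ∧
        ∀ s : ℂ, Λ s = 0 → t < s.im → s.im ≤ t + h / Real.log T → |s.re - a| ≤ ε * h / Real.log T)} ≤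
        ENNReal.ofReal (C * Real.exp (-(c * h)) * T) := by
  obtain ⟨K0, hDD, hst⟩ := dd_of hκ hP
  have hκ0 : 0 < κ := by linarith
  have hb : 0 < 2 * κ := by positivity
  have hpi := Real.pi_gt_three
  -- the function `F`
  have hF : (fun z => (fun z => u * Λ ((a : ℂ) + z)) (z / (2 * κ : ℝ))) =
      fun z : ℂ => u * Λ ((a : ℂ) + ((2 * κ)⁻¹ : ℝ) * z) := by
    funext z
    simp only
    congr 3
    push_cast
    rw [div_eq_inv_mul]
  rw [hF] at hDD hst
  have hr : 0 < (2 * κ)⁻¹ := by positivity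
  have hfinF := zs_fin hDD.diff (p := 10 * κ) (by
    have := hDD.ne 0
    rwa [iteratedDeriv_zero] at this) (B := κ) (fun z hz => hst 0 z (by rw [iteratedDeriv_zero]; exact hz))
  have hzF : ∀ s : ℂ, u * Λ ((a : ℂ) + ((2 * κ)⁻¹ : ℝ) * (((2 * κ : ℝ) : ℂ) * (s - a))) = 0 ↔ Λ s = 0 := by
    intro s
    have e : (a : ℂ) + ((2 * κ)⁻¹ : ℝ) * (((2 * κ : ℝ) : ℂ) * (s - a)) = s := by
      have hkc : (κ : ℂ) ≠ 0 := by exact_mod_cast hκ0.ne'
      push_cast
      field_simp
      ring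
    rw [e, mul_eq_zero]
    exact ⟨fun h => h.resolve_left hu, fun h => Or.inr h⟩
  have hzim : ∀ s : ℂ, (((2 * κ : ℝ) : ℂ) * (s - a)).im = 2 * κ * s.im := by
    intro s
    rw [Complex.im_ofReal_mul]
    simp
  have hzre : ∀ s : ℂ, (((2 * κ : ℝ) : ℂ) * (s - a)).re = 2 * κ * (s.re - a) := by
    intro s
    rw [Complex.re_ofReal_mul]
    simp
  refine ⟨?_, ?_⟩
  · intro t1 t2
    refine ((hfinF (2 * κ * t1) (2 * κ * t2)).image (fun z : ℂ => (a : ℂ) + ((2 * κ)⁻¹ : ℝ) * z)).subset ?_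
    rintro s ⟨h1, h2, h3⟩
    refine ⟨((2 * κ : ℝ) : ℂ) * (s - a), ⟨(hzF s).2 h1, ?_, ?_⟩, ?_⟩
    · rw [hzim]
      gcongr
    · rw [hzim]
      gcongr
    · have hkc : (κ : ℂ) ≠ 0 := by exact_mod_cast hκ0.ne'
      simp only
      push_cast
      field_simp
      ring
  obtain ⟨ε1, hε1⟩ : ∃ ε1 : ℝ, ε1 = ε / (5 * κ) := ⟨_, rfl⟩
  have hε1p : 0 < ε1 := by rw [hε1]; positivity
  have hε1κ : ε1 * (5 * κ) = ε := by rw [hε1]; field_simp
  obtain ⟨c, C, hc, hC, h1⟩ := conc3 hDD hst (ε := min ε1 ε) (D := 2 * κ) (lt_min hε1p hε) hb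
  have hlog0 : 0 ≤ Real.log (2 * κ) := Real.log_nonneg (by linarith)
  -- a large height
  obtain ⟨E, hE⟩ : ∃ E : ℝ, E = max (Real.log (2 * κ)) (Real.log (2 * κ) / ε1) := ⟨_, rfl⟩
  have hE0 : 0 ≤ E := by rw [hE]; exact le_max_of_le_left hlog0
  refine ⟨2 * κ * c, C + Real.exp (2 * κ * c * E), by positivity, by positivity, ?_⟩
  intro h T hh0 hT hhT
  have hTp : 0 < T := by linarith
  obtain ⟨L, hL⟩ : ∃ L : ℝ, L = Real.log T := ⟨_, rfl⟩
  rw [← hL] at hhT ⊢
  have hLp : 0 < L := by rw [hL]; exact Real.log_pos (by linarith)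
  rcases lt_or_ge L E with hLE | hLE
  · -- low heights
    refine (measure_mono (t := Icc 0 T) fun t ht => ⟨ht.1, ht.2.1⟩).trans ?_
    rw [Real.volume_Icc, sub_zero]
    apply ENNReal.ofReal_le_ofReal
    have h4 : 1 ≤ Real.exp (2 * κ * c * E) * Real.exp (-(2 * κ * c * h)) := by
      rw [← Real.exp_add]
      apply Real.one_le_exp
      have h5 : h ≤ E := by linarith
      have := mul_le_mul_of_nonneg_left h5 (by positivity : 0 ≤ 2 * κ * c)
      linarith
    have h5 : 0 ≤ C * Real.exp (-(2 * κ * c * h)) * T := by positivity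
    calc T ≤ (Real.exp (2 * κ * c * E) * Real.exp (-(2 * κ * c * h))) * T := le_mul_of_one_le_left hTp.le h4
      _ ≤ (Real.exp (2 * κ * c * E) * Real.exp (-(2 * κ * c * h))) * T + C * Real.exp (-(2 * κ * c * h)) * T := by
          linarith
      _ = _ := by ring
  · -- the main case
    rw [hE] at hLE
    have hl1 : Real.log (2 * κ) ≤ L := (le_max_left _ _).trans hLE
    have hl2 : Real.log (2 * κ) ≤ ε1 * L := by
      have h2 : Real.log (2 * κ) / ε1 ≤ L := (le_max_right _ _).trans hLE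
      rw [div_le_iff₀ hε1p] at h2
      linarith
    obtain ⟨L', hL'⟩ : ∃ L' : ℝ, L' = Real.log (2 * κ * T) := ⟨_, rfl⟩
    have hLL : L' = Real.log (2 * κ) + L := by
      rw [hL', Real.log_mul hb.ne' hTp.ne', hL]
    obtain ⟨H, hH⟩ : ∃ H : ℝ, H = h / L := ⟨_, rfl⟩
    have hH0 : 0 ≤ H := by rw [hH]; positivity
    have hH1 : H ≤ 1 := by rw [hH, div_le_one hLp]; exact hhT
    have hHL : H * L = h := by rw [hH]; field_simp
    have h2 := h1 (2 * κ * T) (2 * κ * H) (by nlinarith) (by positivity) (by nlinarith)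
    rw [← hL'] at h2
    have hsub : {t : ℝ | 0 ≤ t ∧ t ≤ T ∧ ¬ (|(cnt Λ t (t + h / L) : ℝ) - κ * h / Real.pi| ≤ ε * h ∧
        ∀ s : ℂ, Λ s = 0 → t < s.im → s.im ≤ t + h / L → |s.re - a| ≤ ε * h / L)} ⊆
        (fun t : ℝ => (2 * κ) * t) ⁻¹' {t : ℝ | 0 ≤ t ∧ t ≤ 2 * κ * T ∧
          ¬ Gd (fun z : ℂ => u * Λ ((a : ℂ) + ((2 * κ)⁻¹ : ℝ) * z)) (min ε1 ε) t (2 * κ * H) L'} := by
      rintro t ⟨k1, k2, k3⟩
      refine ⟨mul_nonneg hb.le k1, mul_le_mul_of_nonneg_left k2 hb.le, fun hG => k3 ?_⟩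
      obtain ⟨g1, g2⟩ := hG
      rw [← hH]
      constructor
      · rw [cnt_affine hΛ hu a hr] at g1
        have e1 : (2 * κ)⁻¹ * (2 * κ * t) = t := by field_simp
        have e2 : (2 * κ)⁻¹ * (2 * κ * t + 2 * κ * H) = t + H := by field_simp
        rw [e1, e2] at g1
        have e3 : (cnt Λ t (t + H) : ℝ) - κ * h / Real.pi = ((cnt Λ t (t + H) : ℝ) -
            2 * κ * H * L' / (2 * Real.pi)) + κ * H * Real.log (2 * κ) / Real.pi := by
          rw [hLL, ← hHL]
          field_simp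
          ring
        rw [e3]
        refine (abs_add_le _ _).trans ?_
        have e4 : |κ * H * Real.log (2 * κ) / Real.pi| ≤ κ * ε1 * h := by
          rw [abs_of_nonneg (by positivity), div_le_iff₀ (by positivity)]
          have h5 : κ * H * Real.log (2 * κ) ≤ κ * H * (ε1 * L) := by gcongr
          have e5 : κ * H * (ε1 * L) = κ * ε1 * h := by rw [← hHL]; ring
          have h6 : 0 ≤ κ * ε1 * h := by positivity
          nlinarith
        have e5 : min ε1 ε * (2 * κ * H) * L' ≤ 4 * κ * ε1 * h := by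
          have h5 : L' ≤ 2 * L := by rw [hLL]; linarith
          have h6 : min ε1 ε ≤ ε1 := min_le_left _ _
          have h7 : 0 ≤ L' := by rw [hLL]; positivity
          calc min ε1 ε * (2 * κ * H) * L' ≤ ε1 * (2 * κ * H) * (2 * L) := by gcongr
            _ = 4 * κ * ε1 * (H * L) := by ring
            _ = _ := by rw [hHL]
        have e6 : ε * h = 5 * κ * ε1 * h := by rw [← hε1κ]; ring
        linarith
      · intro s hs k4 k5
        have g3 := g2 (((2 * κ : ℝ) : ℂ) * (s - a)) ((hzF s).2 hs) (by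
          rw [hzim]
          exact mul_lt_mul_of_pos_left k4 hb) (by
          rw [hzim, ← mul_add]
          exact mul_le_mul_of_nonneg_left k5 hb.le)
        rw [hzre, abs_mul, abs_of_pos hb] at g3
        have e1 : ε * h / L = ε * H := by rw [hH]; ring
        rw [e1]
        have h6 : min ε1 ε ≤ ε := min_le_right _ _
        have h7 : min ε1 ε * (2 * κ * H) ≤ ε * (2 * κ * H) := by gcongr
        have h8 : 2 * κ * |s.re - a| ≤ 2 * κ * (ε * H) := by linarith
        exact le_of_mul_le_mul_left h8 hb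
    refine (measure_mono hsub).trans ?_
    rw [Real.volume_preimage_mul_left hb.ne']
    refine (mul_le_mul_right h2 _).trans ?_
    rw [← ENNReal.ofReal_mul (abs_nonneg _), abs_of_pos hr]
    apply ENNReal.ofReal_le_ofReal
    have e1 : (2 * κ)⁻¹ * (C * (2 * κ * T) * Real.exp (-(c * (2 * κ * H) * L'))) =
        C * Real.exp (-(c * (2 * κ * H) * L')) * T := by
      field_simp
    rw [e1]
    have e2 : Real.exp (-(c * (2 * κ * H) * L')) ≤ Real.exp (-(2 * κ * c * h)) := by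
      apply Real.exp_le_exp.2
      have h5 : L ≤ L' := by rw [hLL]; linarith
      have h6 : c * (2 * κ * H) * L ≤ c * (2 * κ * H) * L' := by gcongr
      have e3 : c * (2 * κ * H) * L = 2 * κ * c * h := by rw [← hHL]; ring
      linarith
    have h5 : 0 ≤ Real.exp (2 * κ * c * E) * Real.exp (-(2 * κ * c * h)) * T := by positivity
    calc C * Real.exp (-(c * (2 * κ * H) * L')) * T ≤ C * Real.exp (-(2 * κ * c * h)) * T := by gcongr
      _ ≤ C * Real.exp (-(2 * κ * c * h)) * T + Real.exp (2 * κ * c * E) * Real.exp (-(2 * κ * c * h)) * T := by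
          linarith
      _ = _ := by ring

end Pool.Agent.Helper29K9.Clu
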