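import Pool.Agent.Helper29K9.Clu.Win
import Pool.Agent.H24R2.DZ.Spec

set_option autoImplicit false

/-!
# The local situation from the good scales, and the number of zeros in a window
-/

namespace Pool.Agent.Helper29K9.Clu

open Complex Metric Set Filter Topology
open Pool.Agent.H24R2.DZ (NN ra)

/-- growth along a segment from `1` -/
theorem grow1 {a η : ℝ} {F : ℂ → ℂ} (ha : 0 ≤ a) (hη : η ≤ 1) (h : NN a η F) (w : ℂ)
    (hw : 1 / 1000 ≤ w.re) (hw2 : ‖w‖ ≤ 20) : ‖F w‖ ≤ ‖F 1‖ * Real.exp (2 * a * ‖w - 1‖) := by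
  have hseg : ∀ t : ℝ, 0 ≤ t → t ≤ 1 →
      1 / 1000 ≤ (1 + (t : ℂ) * (w - 1)).re ∧ ‖1 + (t : ℂ) * (w - 1)‖ ≤ 20 := by
    intro t ht ht1
    constructor
    · have : (1 + (t : ℂ) * (w - 1)).re = 1 + t * (w.re - 1) := by simp
      rw [this]
      nlinarith
    · have e : 1 + (t : ℂ) * (w - 1) = ((1 - t : ℝ) : ℂ) * 1 + ((t : ℝ) : ℂ) * w := by
        push_cast; ring
      rw [e]
      refine (norm_add_le _ _).trans ?_
      rw [norm_mul, norm_mul, Complex.norm_real, Complex.norm_real, Real.norm_of_nonneg ht,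
        Real.norm_of_nonneg (by linarith : (0:ℝ) ≤ 1 - t), norm_one]
      nlinarith
  have hd : ∀ t : ℝ, HasDerivAt (fun t : ℝ => F (1 + (t : ℂ) * (w - 1)))
      (deriv F (1 + (t : ℂ) * (w - 1)) * (w - 1)) t := by
    intro t
    have h1 : HasDerivAt (fun t : ℝ => 1 + (t : ℂ) * (w - 1)) (w - 1) t := by
      have := ((Complex.ofRealCLM.hasDerivAt (x := t)).mul_const (w - 1)).const_add 1
      refine this.congr_deriv ?_
      simp
    exact (h.diff _).hasDerivAt.comp t h1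
  have key := norm_le_gronwallBound_of_norm_deriv_right_le
    (f := fun t : ℝ => F (1 + (t : ℂ) * (w - 1)))
    (f' := fun t : ℝ => deriv F (1 + (t : ℂ) * (w - 1)) * (w - 1)) (δ := ‖F 1‖)
    (K := 2 * a * ‖w - 1‖) (ε := 0) (a := 0) (b := 1)
    (fun t _ => (hd t).continuousAt.continuousWithinAt) (fun t _ => (hd t).hasDerivWithinAt)
    (by simp) ?_ 1 ⟨zero_le_one, le_refl _⟩
  · rw [gronwallBound_ε0] at key
    simpa using key
  · intro t ht
    obtain ⟨h1, h2⟩ := hseg t ht.1 ht.2.le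
    obtain ⟨h3, h4⟩ := h.far _ h1 h2
    have e : deriv F (1 + (t : ℂ) * (w - 1)) =
        logDeriv F (1 + (t : ℂ) * (w - 1)) * F (1 + (t : ℂ) * (w - 1)) := by
      rw [logDeriv_apply, div_mul_cancel₀ _ h3]
    have h5 : ‖logDeriv F (1 + (t : ℂ) * (w - 1))‖ ≤ 2 * a := by
      calc ‖logDeriv F (1 + (t : ℂ) * (w - 1))‖ =
          ‖(logDeriv F (1 + (t : ℂ) * (w - 1)) - a) + a‖ := by rw [sub_add_cancel]
        _ ≤ _ := norm_add_le _ _
        _ ≤ η * a + a := by
            rw [Complex.norm_real, Real.norm_of_nonneg ha]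
            exact add_le_add_left h4 _
        _ ≤ 2 * a := by nlinarith
    rw [add_zero, e, norm_mul, norm_mul]
    have h6 : 0 ≤ ‖F (1 + (t : ℂ) * (w - 1))‖ := norm_nonneg _
    have h7 : 0 ≤ ‖w - 1‖ := norm_nonneg _
    calc ‖logDeriv F (1 + (t : ℂ) * (w - 1))‖ * ‖F (1 + (t : ℂ) * (w - 1))‖ * ‖w - 1‖
        ≤ (2 * a) * ‖F (1 + (t : ℂ) * (w - 1))‖ * ‖w - 1‖ :=
          mul_le_mul_of_nonneg_right (mul_le_mul_of_nonneg_right h5 h6) h7
      _ = _ := by ring

theorem big1 {a η : ℝ} {F : ℂ → ℂ} (ha : 0 ≤ a) (hη : η ≤ 1) (h : NN a η F) (w : ℂ)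
    (hw : ‖w‖ ≤ 20) : ‖F w‖ ≤ ‖F 1‖ * Real.exp (42 * a) := by
  have hr : ∀ w : ℂ, 1 / 1000 ≤ w.re → ‖w‖ ≤ 20 → ‖F w‖ ≤ ‖F 1‖ * Real.exp (42 * a) := by
    intro w h1 h2
    refine (grow1 ha hη h w h1 h2).trans ?_
    refine mul_le_mul_of_nonneg_left (Real.exp_le_exp.2 ?_) (norm_nonneg _)
    have := norm_sub_le w 1
    rw [norm_one] at this
    nlinarith
  rcases le_or_gt (1 / 1000) w.re with h1 | h1
  · exact hr w h1 hw
  · rcases le_or_gt w.re (-(1 / 1000)) with h2 | h2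
    · have h3 := h.symm w
      have h4 := hr (-((starRingEnd ℂ) w)) (by simp; linarith) (by rw [norm_neg, Complex.norm_conj]; exact hw)
      rw [h3, Complex.norm_conj] at h4
      exact h4
    · refine (h.near w (abs_le.2 ⟨h2.le, h1.le⟩) hw).trans ?_
      gcongr
      linarith

/-- the small scales -/
noncomputable def th (k : ℕ) : ℝ := (1 / 10 ^ 4) ^ k

theorem th_pos (k : ℕ) : 0 < th k := by unfold th; positivity

theorem th_le (k : ℕ) : th k ≤ 1 := by
  unfold th
  exact pow_le_one₀ (by norm_num) (by norm_num)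

theorem th_succ (k : ℕ) : th (k + 1) = th k / 10 ^ 4 := by
  unfold th
  rw [pow_succ]
  ring

theorem th_zero : th 0 = 1 := by
  unfold th
  simp

theorem logDeriv_affine {F : ℂ → ℂ} (hF : Differentiable ℂ F) (c r w : ℂ) :
    logDeriv (fun w => F (c + r * w)) w = r * logDeriv F (c + r * w) := by
  have hl : HasDerivAt (fun w : ℂ => c + r * w) r w := by
    have := ((hasDerivAt_id w).const_mul r).const_add c
    exact this.congr_deriv (mul_one _)
  have h9 : deriv (fun w => F (c + r * w)) w = deriv F (c + r * w) * r := ((hF _).hasDerivAt.comp w hl).deriv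
  rw [logDeriv_apply, logDeriv_apply, h9]
  ring

/-- the local situation from the good scales -/
theorem ls_of {A η : ℝ} {F : ℂ → ℂ} (hA : 0 < A) (hη1 : η ≤ 1) (K : ℕ)
    (h : ∀ k ≤ K, ∀ i : ℤ, |(i : ℝ)| ≤ 8 / th k → NN (A * th k) η (fun w => F (I * ((i * th k : ℝ) : ℂ) + (th k : ℝ) * w))) :
    LS A (th K / 1000) η F := by
  have h0 : NN A η F := by
    have h1 := h 0 (Nat.zero_le _) 0 (by
      rw [Int.cast_zero, abs_zero]
      exact (div_pos (by norm_num) (th_pos 0)).le)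
    simp only [th_zero, Int.cast_zero, mul_one, Complex.ofReal_zero, mul_zero, zero_add,
      Complex.ofReal_one, one_mul] at h1
    exact h1
  refine ⟨h0.diff, h0.symm, fun z hz => big1 hA.le hη1 h0 z hz, ?_⟩
  intro z hz hx
  classical
  have hex : ∃ k, k ≤ K ∧ th k / 1000 ≤ z.re := ⟨K, le_rfl, hx⟩
  obtain ⟨k, ⟨hk, hkz⟩, hmin⟩ : ∃ k, (k ≤ K ∧ th k / 1000 ≤ z.re) ∧
      ∀ i < k, ¬ (i ≤ K ∧ th i / 1000 ≤ z.re) :=
    ⟨Nat.find hex, Nat.find_spec hex, fun i hi => Nat.find_min hex hi⟩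
  have hzre : z.re ≤ 10 * th k := by
    rcases Nat.eq_zero_or_pos k with hk0 | hk0
    · rw [hk0, th_zero]
      have := Complex.re_le_norm z
      linarith
    · obtain ⟨i, rfl⟩ : ∃ i, k = i + 1 := ⟨k - 1, by omega⟩
      have h1 := hmin i (by omega)
      rw [not_and] at h1
      have h2 := h1 (by omega)
      push Not at h2
      rw [th_succ]
      linarith
  have ht := th_pos k
  have ht1 := th_le k
  -- the centre
  obtain ⟨i, hi⟩ : ∃ i : ℤ, i = round (z.im / th k) := ⟨_, rfl⟩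
  have hi1 : |z.im / th k - i| ≤ 1 / 2 := by rw [hi]; exact abs_sub_round _
  have hi2 : |z.im - i * th k| ≤ th k / 2 := by
    have e : z.im - i * th k = (z.im / th k - i) * th k := by field_simp
    rw [e, abs_mul, abs_of_pos ht]
    nlinarith
  have hi3 : |(i : ℝ)| ≤ 8 / th k := by
    have h1 : |z.im| ≤ 7 := (Complex.abs_im_le_norm z).trans hz
    have h2 : |(i : ℝ)| ≤ |z.im / th k| + 1 / 2 := by
      have := abs_sub_abs_le_abs_sub (i : ℝ) (z.im / th k)
      rw [abs_sub_comm] at this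
      linarith
    rw [abs_div, abs_of_pos ht] at h2
    have h3 : |z.im| / th k ≤ 7 / th k := by gcongr
    have h4 : (1 : ℝ) ≤ 1 / th k := by rw [le_div_iff₀ ht]; linarith
    have h5 : 8 / th k = 7 / th k + 1 / th k := by ring
    linarith
  have hN := h k hk i hi3
  have hthc : (th k : ℂ) ≠ 0 := by exact_mod_cast ht.ne'
  obtain ⟨w, hw⟩ : ∃ w : ℂ, w = (z - I * ((i * th k : ℝ) : ℂ)) / (th k : ℝ) := ⟨_, rfl⟩
  have hzw : I * ((i * th k : ℝ) : ℂ) + (th k : ℝ) * w = z := by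
    rw [hw]
    field_simp
    ring
  have hwre : w.re = z.re / th k := by
    rw [hw, Complex.div_ofReal_re]
    simp
  have hwim : w.im = (z.im - i * th k) / th k := by
    rw [hw, Complex.div_ofReal_im]
    simp
  have hw1 : 1 / 1000 ≤ w.re := by
    rw [hwre, le_div_iff₀ ht]
    linarith
  have hw2 : w.re ≤ 10 := by
    rw [hwre, div_le_iff₀ ht]
    exact hzre
  have hw3 : |w.im| ≤ 1 := by
    rw [hwim, abs_div, abs_of_pos ht, div_le_iff₀ ht]
    linarith
  have hw4 : ‖w‖ ≤ 20 := by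
    have := Complex.norm_le_abs_re_add_abs_im w
    rw [abs_of_nonneg (by linarith : 0 ≤ w.re)] at this
    linarith
  obtain ⟨h1, h2⟩ := hN.far w hw1 hw4
  rw [logDeriv_affine h0.diff, hzw] at h2
  simp only [hzw] at h1
  refine ⟨h1, ?_⟩
  have h3 : (th k : ℂ) * logDeriv F z - ((A * th k : ℝ) : ℂ) = (th k : ℝ) * (logDeriv F z - A) := by
    push_cast
    ring
  rw [h3, norm_mul, Complex.norm_real, Real.norm_of_nonneg ht.le] at h2
  have h4 : th k * ‖logDeriv F z - A‖ ≤ th k * (η * A) := by linarith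
  exact le_of_mul_le_mul_left h4 ht

/-- **The number of zeros in a window**. -/
theorem win {A x0 η δ : ℝ} {F : ℂ → ℂ} (hA : 0 < A) (hx0 : 0 < x0) (hδ : 0 < δ) (hδ1 : δ ≤ 1 / 40)
    (hη : η ≤ δ) (hx1 : x0 ≤ δ ^ 2) (h : LS A x0 η F) :
    ∃ Z : Finset ℂ, (∀ s, s ∈ Z ↔ ‖s‖ ≤ 6 ∧ F s = 0) ∧ (∀ s ∈ Z, |s.re| < x0) ∧
      |∑ s ∈ Z.filter (fun s => 0 < s.im ∧ s.im ≤ 1), (analyticOrderNatAt F s : ℝ) - A / Real.pi| ≤
        200 * A * δ := by
  have hx2 : x0 ≤ 1 / 1000 := by nlinarith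
  obtain ⟨Z, hZ, hZre, hn, hph⟩ := phase hA hx0 hx2 h
  refine ⟨Z, hZ, hZre, ?_⟩
  have hpi := Real.pi_gt_three
  have hpi4 := Real.pi_lt_four
  have hm0 : ∀ s : ℂ, (0 : ℝ) ≤ analyticOrderNatAt F s := fun s => Nat.cast_nonneg _
  obtain ⟨N, hN⟩ : ∃ N : ℝ, N = ∑ s ∈ Z.filter (fun s => 0 < s.im ∧ s.im ≤ 1), (analyticOrderNatAt F s : ℝ) :=
    ⟨_, rfl⟩
  rw [← hN]
  have hN0 : 0 ≤ N := by rw [hN]; exact Finset.sum_nonneg fun s _ => hm0 s
  have hNn : N ≤ 61 * A := by
    rw [hN]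
    exact (Finset.sum_le_sum_of_subset_of_nonneg (Finset.filter_subset _ _) fun s _ _ => hm0 s).trans hn
  have hxd : x0 / δ ≤ δ := by rw [div_le_iff₀ hδ]; nlinarith
  have hηA : η * A ≤ δ * A := by gcongr
  have hAx : A * x0 ≤ A * δ * (1 / 40) := by
    have : x0 ≤ δ * (1 / 40) := by nlinarith
    calc A * x0 ≤ A * (δ * (1 / 40)) := by gcongr
      _ = _ := by ring
  -- upper bound
  have hup : (2 * Real.pi - 8 * x0 / δ) * N ≤ 2 * A + 52 * (A * δ) := by
    have h1 := (abs_le.1 (hph (-δ) (1 + δ) (by linarith) (by linarith) (by linarith))).2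
    have h2 : (2 * Real.pi - 8 * x0 / δ) * N ≤ ∑ s ∈ Z, (analyticOrderNatAt F s : ℝ) * ang x0 (-δ) (1 + δ) s := by
      rw [hN, Finset.mul_sum]
      calc ∑ s ∈ Z.filter (fun s => 0 < s.im ∧ s.im ≤ 1), (2 * Real.pi - 8 * x0 / δ) * (analyticOrderNatAt F s : ℝ)
          ≤ ∑ s ∈ Z.filter (fun s => 0 < s.im ∧ s.im ≤ 1), (analyticOrderNatAt F s : ℝ) * ang x0 (-δ) (1 + δ) s := by
            refine Finset.sum_le_sum fun s hs => ?_
            rw [Finset.mem_filter] at hs
            rw [mul_comm]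
            refine mul_le_mul_of_nonneg_left ?_ (hm0 s)
            exact ang_ge hδ (hZre s hs.1) (by linarith [hs.2.1]) (by linarith [hs.2.2])
        _ ≤ _ := by
            refine Finset.sum_le_sum_of_subset_of_nonneg (Finset.filter_subset _ _) fun s hs _ => ?_
            exact mul_nonneg (hm0 s) (ang_nonneg (hZre s hs) (by linarith))
    have h3 : 2 * (η * A) * (1 + δ - -δ) ≤ 2 * (δ * A) * (1 + δ - -δ) := by
      have : (0 : ℝ) ≤ 1 + δ - -δ := by linarith
      gcongr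
    have hAd : 0 < A * δ := by positivity
    have hAdd : A * δ * δ ≤ A * δ * (1 / 40) := by gcongr
    nlinarith
  -- lower bound
  have hlow : 2 * A - 500 * (A * δ) ≤ 2 * Real.pi * N := by
    have h1 := (abs_le.1 (hph δ (1 - δ) (by linarith) (by linarith) (by linarith))).1
    have h2 : ∑ s ∈ Z, (analyticOrderNatAt F s : ℝ) * ang x0 δ (1 - δ) s ≤
        2 * Real.pi * N + 4 * x0 / δ * (61 * A) := by
      have h3 : ∀ s ∈ Z, (analyticOrderNatAt F s : ℝ) * ang x0 δ (1 - δ) s ≤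
          (if 0 < s.im ∧ s.im ≤ 1 then 2 * Real.pi * (analyticOrderNatAt F s : ℝ) else 0) +
            4 * x0 / δ * (analyticOrderNatAt F s : ℝ) := by
        intro s hs
        have h4 : 0 ≤ 4 * x0 / δ * (analyticOrderNatAt F s : ℝ) := by
          have := hm0 s
          positivity
        split_ifs with hc
        · have h5 : ang x0 δ (1 - δ) s ≤ 2 * Real.pi := ang_le
          have := mul_le_mul_of_nonneg_left h5 (hm0 s)
          linarith
        · have h5 : ang x0 δ (1 - δ) s ≤ 4 * x0 / δ := by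
            apply ang_small hδ (hZre s hs)
            by_contra hcon
            push Not at hcon
            apply hc
            constructor <;> linarith [hcon.1, hcon.2]
          have := mul_le_mul_of_nonneg_left h5 (hm0 s)
          linarith
      refine (Finset.sum_le_sum h3).trans ?_
      rw [Finset.sum_add_distrib, ← Finset.sum_filter, ← Finset.mul_sum, ← Finset.mul_sum, ← hN]
      gcongr
    have h3 : 2 * (η * A) * (1 - δ - δ) ≤ 2 * (δ * A) * (1 - δ - δ) := by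
      have : (0 : ℝ) ≤ 1 - δ - δ := by linarith
      gcongr
    have h4 : 4 * x0 / δ * (61 * A) ≤ 244 * (A * δ) := by
      have e : 4 * x0 / δ * (61 * A) = 244 * (A * (x0 / δ)) := by ring
      rw [e]
      gcongr
    have hAd : 0 < A * δ := by positivity
    nlinarith
  have h8 : 8 * x0 / δ * N ≤ 8 * δ * (61 * A) := by
    have e : 8 * x0 / δ * N = 8 * (x0 / δ) * N := by ring
    rw [e]
    gcongr
  have hAd : 0 < A * δ := by positivity
  have e1 : (N - A / Real.pi) * (2 * Real.pi) = 2 * Real.pi * N - 2 * A := by field_simp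
  rw [abs_le]
  constructor
  · by_contra hcon
    push Not at hcon
    have : (N - A / Real.pi) * (2 * Real.pi) < -(200 * A * δ) * (2 * Real.pi) := by gcongr
    rw [e1] at this
    nlinarith
  · by_contra hcon
    push Not at hcon
    have : 200 * A * δ * (2 * Real.pi) < (N - A / Real.pi) * (2 * Real.pi) := by gcongr
    rw [e1] at this
    nlinarith

end Pool.Agent.Helper29K9.Clu
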