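import Mathlib
import Pool.Agent.W469.RT.JenA
import Pool.Agent.Helper29K9.Clu.Ex

set_option autoImplicit false

/-!
# The number of zeros in a window of a function which looks like `exp (A z)` plus its reflection
-/

namespace Pool.Agent.Helper29K9.Clu

open Complex Metric Set Filter Topology

/-- the local situation: `x0` is the width of the strip which contains the zeros -/
structure LS (A x0 η : ℝ) (F : ℂ → ℂ) : Prop where
  diff : Differentiable ℂ F
  symm : ∀ z : ℂ, F (-((starRingEnd ℂ) z)) = (starRingEnd ℂ) (F z)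
  big : ∀ z : ℂ, ‖z‖ ≤ 20 → ‖F z‖ ≤ ‖F 1‖ * Real.exp (42 * A)
  right : ∀ z : ℂ, ‖z‖ ≤ 7 → x0 ≤ z.re → F z ≠ 0 ∧ ‖logDeriv F z - A‖ ≤ η * A

theorem finz {g : ℂ → ℂ} (hg : Differentiable ℂ g) {a : ℂ} (ha : g a ≠ 0) {K : Set ℂ}
    (hK : IsCompact K) : {s | s ∈ K ∧ g s = 0}.Finite := by
  have han : AnalyticOnNhd ℂ g univ := fun z _ => hg.analyticAt z
  by_contra hinf
  obtain ⟨z, hzK, hz⟩ := Set.Infinite.exists_accPt_of_subset_isCompact (s := {s | s ∈ K ∧ g s = 0}) hinf hK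
    (fun s hs => hs.1)
  rw [accPt_iff_frequently_nhdsNE] at hz
  have h1 : ∃ᶠ y in 𝓝[≠] z, g y = 0 := hz.mono fun y hy => hy.2
  exact ha (han.eqOn_zero_of_preconnected_of_frequently_eq_zero isPreconnected_univ (mem_univ z) h1 (mem_univ a))

/-- the logarithmic derivative of a product -/
theorem logDeriv_fac {F G : ℂ → ℂ} (S : Finset ℂ) (m : ℂ → ℕ) (hG : Differentiable ℂ G)
    (h : ∀ z, F z = (∏ s ∈ S, (z - s) ^ m s) * G z) (z : ℂ) (hz : F z ≠ 0) :
    logDeriv F z = ∑ s ∈ S, (m s : ℂ) / (z - s) + logDeriv G z := by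
  have hF : F = fun z => (∏ s ∈ S, (z - s) ^ m s) * G z := funext h
  have h1 : G z ≠ 0 := by
    intro h0
    apply hz
    rw [h, h0, mul_zero]
  have h2 : ∏ s ∈ S, (z - s) ^ m s ≠ 0 := by
    intro h0
    apply hz
    rw [h, h0, zero_mul]
  have h3 : ∀ s ∈ S, (z - s) ^ m s ≠ 0 := Finset.prod_ne_zero_iff.1 h2
  rw [hF, logDeriv_mul (f := fun z => ∏ s ∈ S, (z - s) ^ m s) (g := G) z h2 h1 (by fun_prop) hG.differentiableAt]
  congr 1
  rw [logDeriv_prod (s := S) (f := fun s z => (z - s) ^ m s) (x := z) h3 (fun s _ => by fun_prop)]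
  refine Finset.sum_congr rfl fun s _ => ?_
  rw [logDeriv_fun_pow (f := fun z => z - s) (by fun_prop), logDeriv_apply]
  have h4 : deriv (fun z : ℂ => z - s) z = 1 := by simp
  rw [h4, mul_one_div]

theorem log_im_eq {w : ℂ} (h : 0 < w.re) : (log w).im = Real.arctan (w.im / w.re) := by
  rw [log_im]
  have h1 := abs_lt.1 (abs_arg_lt_pi_div_two_iff.2 (Or.inl h))
  rw [← Complex.tan_arg, Real.arctan_tan h1.1 h1.2]

/-- the angle under which the two vertical segments are seen from a zero -/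
noncomputable def ang (x0 y1 y2 : ℝ) (s : ℂ) : ℝ :=
  Real.arctan ((y2 - s.im) / (x0 - s.re)) - Real.arctan ((y1 - s.im) / (x0 - s.re)) +
    (Real.arctan ((y2 - s.im) / (x0 + s.re)) - Real.arctan ((y1 - s.im) / (x0 + s.re)))

theorem ang_nonneg {x0 y1 y2 : ℝ} {s : ℂ} (hs : |s.re| < x0) (hy : y1 ≤ y2) : 0 ≤ ang x0 y1 y2 s := by
  have h := abs_lt.1 hs
  have h1 : 0 < x0 - s.re := by linarith
  have h2 : 0 < x0 + s.re := by linarith
  unfold ang
  have h3 : Real.arctan ((y1 - s.im) / (x0 - s.re)) ≤ Real.arctan ((y2 - s.im) / (x0 - s.re)) :=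
    Real.arctan_strictMono.monotone (by gcongr)
  have h4 : Real.arctan ((y1 - s.im) / (x0 + s.re)) ≤ Real.arctan ((y2 - s.im) / (x0 + s.re)) :=
    Real.arctan_strictMono.monotone (by gcongr)
  linarith

theorem ang_le {x0 y1 y2 : ℝ} {s : ℂ} : ang x0 y1 y2 s ≤ 2 * Real.pi := by
  unfold ang
  have h1 := Real.arctan_lt_pi_div_two ((y2 - s.im) / (x0 - s.re))
  have h2 := Real.arctan_lt_pi_div_two ((y2 - s.im) / (x0 + s.re))
  have h3 := Real.neg_pi_div_two_lt_arctan ((y1 - s.im) / (x0 - s.re))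
  have h4 := Real.neg_pi_div_two_lt_arctan ((y1 - s.im) / (x0 + s.re))
  linarith

/-- the arctangent of a large number -/
theorem arctan_ge {d x u δ x0 : ℝ} (hδ : 0 < δ) (hx : 0 < x) (hx2 : x ≤ 2 * x0) (hd : δ ≤ d)
    (hu : u = d / x) : Real.pi / 2 - 2 * x0 / δ ≤ Real.arctan u := by
  have hd0 : 0 < d := hδ.trans_le hd
  have hu0 : 0 < u := by rw [hu]; positivity
  have h1 := Real.arctan_inv_of_pos hu0
  have h2 : Real.arctan u⁻¹ ≤ u⁻¹ := by
    have h := Real.le_tan (x := Real.arctan u⁻¹) (Real.arctan_nonneg.2 (by positivity))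
      (Real.arctan_lt_pi_div_two _)
    rwa [Real.tan_arctan] at h
  have h3 : u⁻¹ ≤ 2 * x0 / δ := by
    rw [hu, inv_div, div_le_div_iff₀ (by linarith) hδ]
    nlinarith
  linarith

theorem ang_ge {x0 y1 y2 δ : ℝ} {s : ℂ} (hδ : 0 < δ) (hs : |s.re| < x0) (h1 : y1 + δ ≤ s.im)
    (h2 : s.im ≤ y2 - δ) : 2 * Real.pi - 8 * x0 / δ ≤ ang x0 y1 y2 s := by
  have h := abs_lt.1 hs
  have h3 : 0 < x0 - s.re := by linarith
  have h4 : 0 < x0 + s.re := by linarith
  have a1 := arctan_ge (x0 := x0) (d := y2 - s.im) (u := (y2 - s.im) / (x0 - s.re)) hδ h3 (by linarith) (by linarith) rfl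
  have a2 := arctan_ge (x0 := x0) (d := y2 - s.im) (u := (y2 - s.im) / (x0 + s.re)) hδ h4 (by linarith) (by linarith) rfl
  have a3 := arctan_ge (x0 := x0) (d := s.im - y1) (u := (s.im - y1) / (x0 - s.re)) hδ h3 (by linarith) (by linarith) rfl
  have a4 := arctan_ge (x0 := x0) (d := s.im - y1) (u := (s.im - y1) / (x0 + s.re)) hδ h4 (by linarith) (by linarith) rfl
  have e1 : (y1 - s.im) / (x0 - s.re) = -((s.im - y1) / (x0 - s.re)) := by rw [← neg_div]; ring
  have e2 : (y1 - s.im) / (x0 + s.re) = -((s.im - y1) / (x0 + s.re)) := by rw [← neg_div]; ring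
  have e3 : 8 * x0 / δ = 4 * (2 * x0 / δ) := by ring
  unfold ang
  rw [e1, e2, Real.arctan_neg, Real.arctan_neg, e3]
  linarith

theorem ang_small {x0 y1 y2 δ : ℝ} {s : ℂ} (hδ : 0 < δ) (hs : |s.re| < x0)
    (h12 : s.im ≤ y1 - δ ∨ y2 + δ ≤ s.im) : ang x0 y1 y2 s ≤ 4 * x0 / δ := by
  have h := abs_lt.1 hs
  have h3 : 0 < x0 - s.re := by linarith
  have h4 : 0 < x0 + s.re := by linarith
  have e3 : 4 * x0 / δ = 2 * (2 * x0 / δ) := by ring
  unfold ang
  rw [e3]
  rcases h12 with h1 | h1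
  · have a1 := arctan_ge (x0 := x0) (d := y1 - s.im) (u := (y1 - s.im) / (x0 - s.re)) hδ h3 (by linarith) (by linarith) rfl
    have a2 := arctan_ge (x0 := x0) (d := y1 - s.im) (u := (y1 - s.im) / (x0 + s.re)) hδ h4 (by linarith) (by linarith) rfl
    have b1 := Real.arctan_lt_pi_div_two ((y2 - s.im) / (x0 - s.re))
    have b2 := Real.arctan_lt_pi_div_two ((y2 - s.im) / (x0 + s.re))
    linarith
  · have a1 := arctan_ge (x0 := x0) (d := s.im - y2) (u := (s.im - y2) / (x0 - s.re)) hδ h3 (by linarith) (by linarith) rfl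
    have a2 := arctan_ge (x0 := x0) (d := s.im - y2) (u := (s.im - y2) / (x0 + s.re)) hδ h4 (by linarith) (by linarith) rfl
    have b1 := Real.neg_pi_div_two_lt_arctan ((y1 - s.im) / (x0 - s.re))
    have b2 := Real.neg_pi_div_two_lt_arctan ((y1 - s.im) / (x0 + s.re))
    have e1 : (y2 - s.im) / (x0 - s.re) = -((s.im - y2) / (x0 - s.re)) := by rw [← neg_div]; ring
    have e2 : (y2 - s.im) / (x0 + s.re) = -((s.im - y2) / (x0 + s.re)) := by rw [← neg_div]; ring
    rw [e1, e2, Real.arctan_neg, Real.arctan_neg]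
    linarith

/-- the logarithmic derivative and the reflection -/
theorem logDeriv_refl {F : ℂ → ℂ} (hF : Differentiable ℂ F)
    (hsymm : ∀ z : ℂ, F (-((starRingEnd ℂ) z)) = (starRingEnd ℂ) (F z)) (z : ℂ) :
    logDeriv F (-((starRingEnd ℂ) z)) = -(starRingEnd ℂ) (logDeriv F z) := by
  have hder : deriv F (-((starRingEnd ℂ) z)) = -(starRingEnd ℂ) (deriv F z) := by
    have h2 : (fun w => F w) = fun w => (starRingEnd ℂ) (F (-((starRingEnd ℂ) w))) := by
      funext w
      rw [hsymm, Complex.conj_conj]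
    have h3 : HasDerivAt (fun w => (starRingEnd ℂ) (F (-((starRingEnd ℂ) w))))
        (-(starRingEnd ℂ) (deriv F z)) (-((starRingEnd ℂ) z)) := by
      have h4 : HasDerivAt F (deriv F z) z := (hF z).hasDerivAt
      have h5 : HasDerivAt ((starRingEnd ℂ) ∘ F ∘ (starRingEnd ℂ)) ((starRingEnd ℂ) (deriv F z))
          ((starRingEnd ℂ) z) := h4.conj_conj
      have h6 : HasDerivAt (fun w : ℂ => -w) (-1) (-((starRingEnd ℂ) z)) := hasDerivAt_neg _
      have h7 : HasDerivAt ((starRingEnd ℂ) ∘ F ∘ (starRingEnd ℂ)) ((starRingEnd ℂ) (deriv F z))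
          (-(-((starRingEnd ℂ) z))) := by rw [neg_neg]; exact h5
      have h8 := h7.comp (-((starRingEnd ℂ) z)) h6
      have h9 : (fun w => (starRingEnd ℂ) (F (-((starRingEnd ℂ) w)))) =
          ((starRingEnd ℂ) ∘ F ∘ (starRingEnd ℂ)) ∘ fun w => -w := by
        funext w
        simp
      rw [h9]
      refine h8.congr_deriv ?_
      ring
    rw [← h2] at h3
    exact h3.deriv
  rw [logDeriv_apply, hder, hsymm, logDeriv_apply, map_div₀, neg_div]

theorem vert (x y : ℝ) : HasDerivAt (fun y : ℝ => (⟨x, y⟩ : ℂ)) I y := by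
  have h : (fun y : ℝ => (⟨x, y⟩ : ℂ)) = fun y : ℝ => (x : ℂ) + (y : ℂ) * I :=
    funext fun y => Complex.mk_eq_add_mul_I x y
  rw [h]
  have h1 : HasDerivAt (fun y : ℝ => (y : ℂ)) 1 y := Complex.ofRealCLM.hasDerivAt
  simpa using (h1.mul_const I).const_add (x : ℂ)

/-- **The phase**. -/
theorem phase {A x0 η : ℝ} {F : ℂ → ℂ} (hA : 0 < A) (hx0 : 0 < x0) (hx1 : x0 ≤ 1 / 1000)
    (h : LS A x0 η F) : ∃ Z : Finset ℂ, (∀ s, s ∈ Z ↔ ‖s‖ ≤ 6 ∧ F s = 0) ∧ (∀ s ∈ Z, |s.re| < x0) ∧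
    (∑ s ∈ Z, (analyticOrderNatAt F s : ℝ) ≤ 61 * A) ∧
    ∀ y1 y2 : ℝ, -2 ≤ y1 → y1 ≤ y2 → y2 ≤ 2 →
      |∑ s ∈ Z, (analyticOrderNatAt F s : ℝ) * ang x0 y1 y2 s - 2 * A * (y2 - y1)| ≤
        2 * (η * A) * (y2 - y1) + 1800 * A * x0 := by
  have hF := h.diff
  have hF1 : F 1 ≠ 0 := (h.right 1 (by rw [norm_one]; norm_num) (by rw [one_re]; linarith)).1
  have hF1' : 0 < ‖F 1‖ := norm_pos_iff.2 hF1
  have hfin : {s | s ∈ closedBall (0 : ℂ) 6 ∧ F s = 0}.Finite := finz hF hF1 (isCompact_closedBall 0 6)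
  obtain ⟨Z, hZ⟩ : ∃ Z : Finset ℂ, ∀ s, s ∈ Z ↔ ‖s‖ ≤ 6 ∧ F s = 0 :=
    ⟨hfin.toFinset, fun s => by simp [Set.Finite.mem_toFinset]⟩
  have hconj : ∀ z : ℂ, ‖-((starRingEnd ℂ) z)‖ = ‖z‖ := fun z => by rw [norm_neg]; exact norm_conj z
  have hre : ∀ z : ℂ, (-((starRingEnd ℂ) z)).re = -z.re := fun z => by simp
  have hZre : ∀ s ∈ Z, |s.re| < x0 := by
    intro s hs
    obtain ⟨h1, h2⟩ := (hZ s).1 hs
    rw [abs_lt]
    constructor
    · by_contra hcon
      push Not at hcon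
      refine (h.right (-((starRingEnd ℂ) s)) (by rw [hconj]; linarith) (by rw [hre]; linarith)).1 ?_
      rw [h.symm, h2, map_zero]
    · by_contra hcon
      push Not at hcon
      exact (h.right s (by linarith) hcon).1 h2
  obtain ⟨G, hG, hFG⟩ := Pool.Agent.W469.RT.Jen.factor hF Z
  obtain ⟨n, hn⟩ : ∃ n : ℕ, n = ∑ s ∈ Z, analyticOrderNatAt F s := ⟨_, rfl⟩
  -- the number of zeros
  have hnA : (n : ℝ) ≤ 61 * A := by
    have h1 := Pool.Agent.W469.RT.Jen.jen0 F hF 1 6 20 (‖F 1‖ * Real.exp (42 * A)) (by norm_num) (by norm_num)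
      (by rw [norm_one]; norm_num) (fun z hz => h.big z hz.le) hF1 Z (fun s hs => ((hZ s).1 hs).1)
    rw [← hn, norm_one] at h1
    have h2 : (14 : ℝ) ^ n ≤ 7 ^ n * Real.exp (42 * A) := by
      have h3 : ‖F 1‖ * (14 : ℝ) ^ n ≤ ‖F 1‖ * (7 ^ n * Real.exp (42 * A)) := by
        calc ‖F 1‖ * (14 : ℝ) ^ n = ‖F 1‖ * (20 - 6) ^ n := by norm_num
          _ ≤ (1 + 6) ^ n * (‖F 1‖ * Real.exp (42 * A)) := h1
          _ = _ := by norm_num; ring
      exact le_of_mul_le_mul_left h3 hF1'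
    have h3 : (2 : ℝ) ^ n ≤ Real.exp (42 * A) := by
      have h4 : (14 : ℝ) ^ n = 7 ^ n * 2 ^ n := by rw [← mul_pow]; norm_num
      rw [h4] at h2
      exact le_of_mul_le_mul_left h2 (by positivity)
    have h5 := Real.log_le_log (by positivity) h3
    rw [Real.log_exp, Real.log_pow] at h5
    have h6 := Real.log_two_gt_d9
    have h7 : (0 : ℝ) ≤ n := Nat.cast_nonneg n
    nlinarith
  have hnA' : ∑ s ∈ Z, (analyticOrderNatAt F s : ℝ) ≤ 61 * A := by
    rw [hn] at hnA
    push_cast at hnA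
    exact hnA
  refine ⟨Z, hZ, hZre, hnA', ?_⟩
  -- the zero-free factor
  have hG0 : ∀ z ∈ ball (0 : ℂ) 6, G z ≠ 0 := by
    intro z hz h0
    have hz' : ‖z‖ < 6 := by simpa using hz
    have hFz : F z = 0 := by rw [hFG, h0, mul_zero]
    have hzZ : z ∈ Z := (hZ z).2 ⟨hz'.le, hFz⟩
    have h1 := hFG
    -- order comparison
    have h2 : analyticOrderAt F z = analyticOrderNatAt F z + analyticOrderAt G z := by
      classical
      have e : F = (fun w => (w - z) ^ analyticOrderNatAt F z) *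
          ((fun w => ∏ s ∈ Z.erase z, (w - s) ^ analyticOrderNatAt F s) * G) := by
        funext w
        rw [Pi.mul_apply, Pi.mul_apply, hFG w, ← Finset.mul_prod_erase Z _ hzZ]
        ring
      have ha1 : AnalyticAt ℂ (fun w => (w - z) ^ analyticOrderNatAt F z) z := by fun_prop
      have ha2 : AnalyticAt ℂ (fun w => ∏ s ∈ Z.erase z, (w - s) ^ analyticOrderNatAt F s) z := by
        have : Differentiable ℂ (fun w => ∏ s ∈ Z.erase z, (w - s) ^ analyticOrderNatAt F s) := by fun_prop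
        exact this.analyticAt z
      have ha3 : (fun w => ∏ s ∈ Z.erase z, (w - s) ^ analyticOrderNatAt F s) z ≠ 0 := by
        refine Finset.prod_ne_zero_iff.2 fun s hs => pow_ne_zero _ (sub_ne_zero.2 ?_)
        rintro rfl
        exact (Finset.mem_erase.1 hs).1 rfl
      have hb1 : analyticOrderAt (fun w => (w - z) ^ analyticOrderNatAt F z) z = analyticOrderNatAt F z := by
        rw [ha1.analyticOrderAt_eq_natCast]
        exact ⟨fun _ => 1, analyticAt_const, one_ne_zero, Filter.Eventually.of_forall fun w => by simp⟩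
      have h3 := analyticOrderAt_mul ha1 (ha2.mul (hG.analyticAt z))
      rw [← e, hb1, analyticOrderAt_mul ha2 (hG.analyticAt z), ha2.analyticOrderAt_eq_zero.2 ha3, zero_add] at h3
      exact h3
    have hF_ne : analyticOrderAt F z ≠ ⊤ := by
      intro htop
      rw [analyticOrderAt_eq_top] at htop
      have han : AnalyticOnNhd ℂ F univ := fun z _ => hF.analyticAt z
      exact hF1 (han.eqOn_zero_of_preconnected_of_eventuallyEq_zero isPreconnected_univ (mem_univ z) htop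
        (mem_univ 1))
    have h3 : ((analyticOrderNatAt F z : ℕ) : ℕ∞) = analyticOrderAt F z := by
      unfold analyticOrderNatAt
      exact ENat.natCast_toNat hF_ne
    rw [h3] at h2
    have h4 : analyticOrderAt G z = 0 := by
      by_contra h5
      have h6 : 1 ≤ analyticOrderAt G z := Order.one_le_iff_ne_zero.2 h5
      have h7 : analyticOrderAt F z + 1 ≤ analyticOrderAt F z := by
        calc analyticOrderAt F z + 1 ≤ analyticOrderAt F z + analyticOrderAt G z := by gcongr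
          _ = analyticOrderAt F z := h2.symm
      exact absurd h7 (not_le.2 (ENat.lt_add_one_iff hF_ne |>.2 le_rfl))
    exact ((hG.analyticAt z).analyticOrderAt_eq_zero.1 h4) h0
  have hG1 : ‖F 1‖ ≤ 7 ^ n * ‖G 1‖ := by
    rw [hFG 1, norm_mul, norm_prod]
    refine mul_le_mul_of_nonneg_right ?_ (norm_nonneg _)
    rw [hn, ← Finset.prod_pow_eq_pow_sum]
    refine Finset.prod_le_prod (fun s _ => norm_nonneg _) fun s hs => ?_
    rw [norm_pow]
    refine pow_le_pow_left₀ (norm_nonneg _) ?_ _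
    refine (norm_sub_le _ s).trans ?_
    rw [norm_one]
    linarith [((hZ s).1 hs).1]
  have hGb : ∀ z : ℂ, ‖z‖ ≤ 20 → ‖G z‖ ≤ Real.exp (42 * A) * ‖G 1‖ := by
    have h1 : ∀ z : ℂ, ‖z‖ = 20 → ‖G z‖ ≤ Real.exp (42 * A) * ‖G 1‖ := by
      intro z hz
      have h2 := h.big z hz.le
      rw [hFG z, norm_mul, norm_prod] at h2
      have h3 : (14 : ℝ) ^ n ≤ ∏ s ∈ Z, ‖(z - s) ^ analyticOrderNatAt F s‖ := by
        rw [hn, ← Finset.prod_pow_eq_pow_sum]
        refine Finset.prod_le_prod (fun s _ => by positivity) fun s hs => ?_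
        rw [norm_pow]
        refine pow_le_pow_left₀ (by norm_num) ?_ _
        have h4 := norm_sub_norm_le z s
        have h5 := ((hZ s).1 hs).1
        linarith
      have h4 : (7 : ℝ) ^ n * ‖G z‖ ≤ 7 ^ n * (Real.exp (42 * A) * ‖G 1‖) := by
        calc (7 : ℝ) ^ n * ‖G z‖ ≤ 14 ^ n * ‖G z‖ := by gcongr; norm_num
          _ ≤ (∏ s ∈ Z, ‖(z - s) ^ analyticOrderNatAt F s‖) * ‖G z‖ := by gcongr
          _ ≤ ‖F 1‖ * Real.exp (42 * A) := h2
          _ ≤ (7 ^ n * ‖G 1‖) * Real.exp (42 * A) := by gcongr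
          _ = _ := by ring
      exact le_of_mul_le_mul_left h4 (by positivity)
    intro z hz
    refine Complex.norm_le_of_forall_mem_frontier_norm_le (U := Metric.ball (0 : ℂ) 20)
      Metric.isBounded_ball hG.diffContOnCl ?_ ?_
    · intro w hw
      rw [frontier_ball _ (by norm_num)] at hw
      exact h1 w (by simpa using hw)
    · rw [closure_ball _ (by norm_num)]
      simpa using hz
  obtain ⟨g, hg, hGg⟩ := exists_log (by norm_num : (0 : ℝ) < 6) hG hG0
  have h1mem : (1 : ℂ) ∈ ball (0 : ℂ) 6 := by simp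
  have hG1' : 0 < ‖G 1‖ := norm_pos_iff.2 (hG0 1 h1mem)
  have hup : ∀ z ∈ ball (0 : ℂ) 6, (g z - g 1).re ≤ 42 * A := by
    intro z hz
    have hz' : ‖z‖ < 6 := by simpa using hz
    have h2 := hGb z (by linarith)
    have h3 : ‖G z‖ = ‖G 1‖ * Real.exp ((g z - g 1).re) := by
      rw [hGg z hz, hGg 1 h1mem, norm_mul, norm_mul, Complex.norm_exp, Complex.norm_exp, Complex.sub_re,
        mul_assoc, ← Real.exp_add]
      congr 2
      ring
    rw [h3, mul_comm] at h2
    exact Real.exp_le_exp.1 (le_of_mul_le_mul_right h2 hG1')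
  have hBC1 : ∀ w : ℂ, ‖w‖ ≤ 4 → ‖g (1 + w) - g 1‖ ≤ 336 * A := by
    intro w hw
    have h1 := borelCaratheodory_zero (f := fun w => g (1 + w) - g 1) (M := 42 * A) (R := 5)
      (z := w) (by positivity) (by
        intro w hw
        have hw' : ‖w‖ < 5 := by simpa using hw
        have hm : 1 + w ∈ ball (0 : ℂ) 6 := by
          rw [mem_ball_zero_iff]
          have := norm_add_le 1 w
          rw [norm_one] at this
          linarith
        have h2 : HasDerivAt (fun w => g (1 + w)) (logDeriv G (1 + w)) w := (hg (1 + w) hm).comp_const_add 1 w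
        exact ((h2.sub_const _).differentiableAt).differentiableWithinAt) (by
        intro w hw
        have hw' : ‖w‖ < 5 := by simpa using hw
        have hm : 1 + w ∈ ball (0 : ℂ) 6 := by
          rw [mem_ball_zero_iff]
          have := norm_add_le 1 w
          rw [norm_one] at this
          linarith
        exact hup _ hm) (by norm_num) (by rw [mem_ball_zero_iff]; linarith) (by simp)
    refine h1.trans ?_
    rw [div_le_iff₀ (by linarith)]
    nlinarith [norm_nonneg w]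
  have hcross : ∀ y : ℝ, |y| ≤ 2 → ‖g ⟨x0, y⟩ - g ⟨-x0, y⟩‖ ≤ 900 * A * x0 := by
    intro y hy
    obtain ⟨p, hp⟩ : ∃ p : ℂ, p = ⟨-x0, y⟩ := ⟨_, rfl⟩
    have hpn : ‖p‖ ≤ 21 / 10 := by
      have := Complex.norm_le_abs_re_add_abs_im p
      rw [hp] at this ⊢
      simp only [abs_neg, abs_of_pos hx0] at this
      linarith
    have hq : (⟨x0, y⟩ : ℂ) = p + ((2 * x0 : ℝ) : ℂ) := by
      rw [hp]
      apply Complex.ext
      · simp; ring
      · simp
    have hp1 : ‖g p - g 1‖ ≤ 336 * A := by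
      have h1 := hBC1 (p - 1) (by
        have := norm_sub_le p 1
        rw [norm_one] at this
        linarith)
      rwa [add_sub_cancel] at h1
    have hp1' : -(336 * A) ≤ (g p - g 1).re := (neg_le_neg hp1).trans (neg_le_of_abs_le (Complex.abs_re_le_norm _))
    have hm : ∀ w : ℂ, ‖w‖ < 3 → p + w ∈ ball (0 : ℂ) 6 := by
      intro w hw
      rw [mem_ball_zero_iff]
      have := norm_add_le p w
      linarith
    have hnn : ‖((2 * x0 : ℝ) : ℂ)‖ = 2 * x0 := by
      rw [Complex.norm_real, Real.norm_of_nonneg (by positivity)]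
    have h1 := borelCaratheodory_zero (f := fun w => g (p + w) - g p) (M := 378 * A) (R := 3)
      (z := ((2 * x0 : ℝ) : ℂ)) (by positivity) (by
        intro w hw
        have hw' : ‖w‖ < 3 := by simpa using hw
        have h2 : HasDerivAt (fun w => g (p + w)) (logDeriv G (p + w)) w := (hg (p + w) (hm w hw')).comp_const_add p w
        exact ((h2.sub_const _).differentiableAt).differentiableWithinAt) (by
        intro w hw
        have hw' : ‖w‖ < 3 := by simpa using hw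
        have h2 := hup (p + w) (hm w hw')
        show (g (p + w) - g p).re ≤ 378 * A
        rw [Complex.sub_re] at h2 hp1' ⊢
        linarith) (by norm_num) (by
        rw [mem_ball_zero_iff, hnn]
        linarith) (by simp)
    rw [hnn] at h1
    rw [← hp, hq]
    refine h1.trans ?_
    rw [div_le_iff₀ (by linarith)]
    have : 0 < A * x0 := by positivity
    nlinarith
  intro y1 y2 hy1 hy12 hy2
  -- the two vertical lines
  have hnorm7 : ∀ x y : ℝ, |x| ≤ 1 / 1000 → y ∈ Icc y1 y2 → ‖(⟨x, y⟩ : ℂ)‖ < 6 := by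
    intro x y hx hy
    have h1 := Complex.norm_le_abs_re_add_abs_im (⟨x, y⟩ : ℂ)
    simp only at h1
    have h2 : |y| ≤ 2 := abs_le.2 ⟨by linarith [hy.1], by linarith [hy.2]⟩
    linarith
  have hR : ‖(∑ s ∈ Z, (analyticOrderNatAt F s : ℂ) * log (⟨x0, y2⟩ - s) + g ⟨x0, y2⟩ - I * A * y2) -
      (∑ s ∈ Z, (analyticOrderNatAt F s : ℂ) * log (⟨x0, y1⟩ - s) + g ⟨x0, y1⟩ - I * A * y1)‖ ≤
        η * A * ‖y2 - y1‖ := by
    refine (convex_Icc y1 y2).norm_image_sub_le_of_norm_hasDerivWithin_le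
      (f := fun y : ℝ => ∑ s ∈ Z, (analyticOrderNatAt F s : ℂ) * log (⟨x0, y⟩ - s) + g ⟨x0, y⟩ - I * A * y)
      (f' := fun y : ℝ => I * (logDeriv F ⟨x0, y⟩ - A)) ?_ ?_ ⟨le_rfl, hy12⟩ ⟨hy12, le_rfl⟩
    · intro y hy
      refine HasDerivAt.hasDerivWithinAt ?_
      have hn6 := hnorm7 x0 y (by rw [abs_of_pos hx0]; exact hx1) hy
      have hF0 := (h.right ⟨x0, y⟩ (by linarith) le_rfl).1
      have h1 : HasDerivAt (fun y : ℝ => g ⟨x0, y⟩) (logDeriv G ⟨x0, y⟩ * I) y :=
        (hg ⟨x0, y⟩ (by rw [mem_ball_zero_iff]; exact hn6)).comp y (vert x0 y)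
      have h2 : ∀ s ∈ Z, HasDerivAt (fun y : ℝ => (analyticOrderNatAt F s : ℂ) * log (⟨x0, y⟩ - s))
          ((analyticOrderNatAt F s : ℂ) * (I / (⟨x0, y⟩ - s))) y := by
        intro s hs
        refine (HasDerivAt.clog_real ((vert x0 y).sub_const s) ?_).const_mul _
        rw [mem_slitPlane_iff]
        left
        have := (abs_lt.1 (hZre s hs)).2
        simp only [sub_re]
        linarith
      have h3 : HasDerivAt (fun y : ℝ => I * (A : ℂ) * (y : ℂ)) (I * A) y := by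
        have h4 : HasDerivAt (fun y : ℝ => (y : ℂ)) 1 y := Complex.ofRealCLM.hasDerivAt
        simpa using h4.const_mul (I * (A : ℂ))
      have h4 := ((HasDerivAt.fun_sum h2).add h1).sub h3
      refine h4.congr_deriv ?_
      rw [logDeriv_fac Z _ hG hFG _ hF0, mul_sub, mul_add, Finset.mul_sum]
      congr 2
      · refine Finset.sum_congr rfl fun s _ => ?_
        ring
      · ring
    · intro y hy
      have hn6 := hnorm7 x0 y (by rw [abs_of_pos hx0]; exact hx1) hy
      rw [norm_mul, Complex.norm_I, one_mul]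
      exact (h.right ⟨x0, y⟩ (by linarith) le_rfl).2
  have hL : ‖(∑ s ∈ Z, (analyticOrderNatAt F s : ℂ) * log (s - ⟨-x0, y2⟩) + g ⟨-x0, y2⟩ + I * A * y2) -
      (∑ s ∈ Z, (analyticOrderNatAt F s : ℂ) * log (s - ⟨-x0, y1⟩) + g ⟨-x0, y1⟩ + I * A * y1)‖ ≤
        η * A * ‖y2 - y1‖ := by
    have hrefl : ∀ y : ℝ, (⟨-x0, y⟩ : ℂ) = -((starRingEnd ℂ) ⟨x0, y⟩) := by
      intro y
      apply Complex.ext <;> simp
    refine (convex_Icc y1 y2).norm_image_sub_le_of_norm_hasDerivWithin_le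
      (f := fun y : ℝ => ∑ s ∈ Z, (analyticOrderNatAt F s : ℂ) * log (s - ⟨-x0, y⟩) + g ⟨-x0, y⟩ + I * A * y)
      (f' := fun y : ℝ => I * (logDeriv F ⟨-x0, y⟩ + A)) ?_ ?_ ⟨le_rfl, hy12⟩ ⟨hy12, le_rfl⟩
    · intro y hy
      refine HasDerivAt.hasDerivWithinAt ?_
      have hn6 := hnorm7 (-x0) y (by rw [abs_neg, abs_of_pos hx0]; exact hx1) hy
      have hn6' := hnorm7 x0 y (by rw [abs_of_pos hx0]; exact hx1) hy
      have hF0 : F ⟨-x0, y⟩ ≠ 0 := by
        rw [hrefl, h.symm]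
        exact (map_ne_zero _).2 (h.right ⟨x0, y⟩ (by linarith) le_rfl).1
      have h1 : HasDerivAt (fun y : ℝ => g ⟨-x0, y⟩) (logDeriv G ⟨-x0, y⟩ * I) y :=
        (hg ⟨-x0, y⟩ (by rw [mem_ball_zero_iff]; exact hn6)).comp y (vert (-x0) y)
      have h2 : ∀ s ∈ Z, HasDerivAt (fun y : ℝ => (analyticOrderNatAt F s : ℂ) * log (s - ⟨-x0, y⟩))
          ((analyticOrderNatAt F s : ℂ) * (-I / (s - ⟨-x0, y⟩))) y := by
        intro s hs
        refine (HasDerivAt.clog_real ((vert (-x0) y).const_sub s) ?_).const_mul _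
        rw [mem_slitPlane_iff]
        left
        have := (abs_lt.1 (hZre s hs)).1
        simp only [sub_re]
        linarith
      have h3 : HasDerivAt (fun y : ℝ => I * (A : ℂ) * (y : ℂ)) (I * A) y := by
        have h4 : HasDerivAt (fun y : ℝ => (y : ℂ)) 1 y := Complex.ofRealCLM.hasDerivAt
        simpa using h4.const_mul (I * (A : ℂ))
      have h4 := ((HasDerivAt.fun_sum h2).add h1).add h3
      refine h4.congr_deriv ?_
      rw [logDeriv_fac Z _ hG hFG _ hF0, mul_add, mul_add, Finset.mul_sum]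
      congr 2
      · refine Finset.sum_congr rfl fun s _ => ?_
        rw [← neg_sub s, div_neg, neg_div]
        ring
      · ring
    · intro y hy
      have hn6 := hnorm7 x0 y (by rw [abs_of_pos hx0]; exact hx1) hy
      rw [norm_mul, Complex.norm_I, one_mul]
      show ‖logDeriv F ⟨-x0, y⟩ + A‖ ≤ _
      rw [hrefl, logDeriv_refl hF h.symm]
      have h1 : -(starRingEnd ℂ) (logDeriv F ⟨x0, y⟩) + (A : ℂ) = -(starRingEnd ℂ) (logDeriv F ⟨x0, y⟩ - A) := by
        rw [map_sub, Complex.conj_ofReal]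
        ring
      rw [h1, norm_neg, Complex.norm_conj]
      exact (h.right ⟨x0, y⟩ (by linarith) le_rfl).2
  -- the imaginary parts
  have hyn : ‖y2 - y1‖ = y2 - y1 := Real.norm_of_nonneg (by linarith)
  rw [hyn] at hR hL
  have hR' := (Complex.abs_im_le_norm _).trans hR
  have hL' := (Complex.abs_im_le_norm _).trans hL
  have hc2 := (Complex.abs_im_le_norm _).trans (hcross y2 (abs_le.2 ⟨by linarith, hy2⟩))
  have hc1 := (Complex.abs_im_le_norm _).trans (hcross y1 (abs_le.2 ⟨hy1, by linarith⟩))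
  have hsumR : ∀ y : ℝ, (∑ s ∈ Z, (analyticOrderNatAt F s : ℂ) * log (⟨x0, y⟩ - s)).im =
      ∑ s ∈ Z, (analyticOrderNatAt F s : ℝ) * Real.arctan ((y - s.im) / (x0 - s.re)) := by
    intro y
    rw [Complex.im_sum]
    refine Finset.sum_congr rfl fun s hs => ?_
    have h1 := (abs_lt.1 (hZre s hs)).2
    rw [← Complex.ofReal_natCast, Complex.im_ofReal_mul]
    rw [log_im_eq (by simp only [sub_re]; linarith)]
    simp
  have hsumL : ∀ y : ℝ, (∑ s ∈ Z, (analyticOrderNatAt F s : ℂ) * log (s - ⟨-x0, y⟩)).im =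
      -∑ s ∈ Z, (analyticOrderNatAt F s : ℝ) * Real.arctan ((y - s.im) / (x0 + s.re)) := by
    intro y
    rw [Complex.im_sum, ← Finset.sum_neg_distrib]
    refine Finset.sum_congr rfl fun s hs => ?_
    have h1 := (abs_lt.1 (hZre s hs)).1
    rw [← Complex.ofReal_natCast, Complex.im_ofReal_mul]
    rw [log_im_eq (by simp only [sub_re]; linarith), ← mul_neg, ← Real.arctan_neg]
    congr 2
    simp only [sub_re, sub_im]
    rw [← neg_div]
    congr 1 <;> ring
  have hIA : ∀ y : ℝ, (I * (A : ℂ) * (y : ℂ)).im = A * y := by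
    intro y
    simp
  have hang : ∑ s ∈ Z, (analyticOrderNatAt F s : ℝ) * ang x0 y1 y2 s =
      (∑ s ∈ Z, (analyticOrderNatAt F s : ℝ) * Real.arctan ((y2 - s.im) / (x0 - s.re)) -
        ∑ s ∈ Z, (analyticOrderNatAt F s : ℝ) * Real.arctan ((y1 - s.im) / (x0 - s.re))) +
      (∑ s ∈ Z, (analyticOrderNatAt F s : ℝ) * Real.arctan ((y2 - s.im) / (x0 + s.re)) -
        ∑ s ∈ Z, (analyticOrderNatAt F s : ℝ) * Real.arctan ((y1 - s.im) / (x0 + s.re))) := by
    rw [← Finset.sum_sub_distrib, ← Finset.sum_sub_distrib, ← Finset.sum_add_distrib]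
    refine Finset.sum_congr rfl fun s _ => ?_
    unfold ang
    ring
  simp only [sub_im, add_im, hsumR, hsumL, hIA] at hR' hL' hc1 hc2
  rw [hang, abs_le]
  have a1 := abs_le.1 hR'
  have a2 := abs_le.1 hL'
  have a3 := abs_le.1 hc2
  have a4 := abs_le.1 hc1
  constructor <;> linarith [a1.1, a1.2, a2.1, a2.2, a3.1, a3.2, a4.1, a4.2]

end Pool.Agent.Helper29K9.Clu
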